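import Pool.Agent.P.MP_e0c037_lc.Graph

/-! Multigraphs with a supply of virtual edges: reachability, blocks, cuts. -/

set_option linter.unusedSectionVars false

namespace Pool.Agent.P.MP_e0c037_lc.FL

open Finset
open scoped Classical

/-- Edges with ends, and a virtual edge between any two vertices. -/
structure MG (α V : Type) where
  src : α → V
  tgt : α → V
  ve : V → V → α
  src_ve : ∀ x y, src (ve x y) = x
  tgt_ve : ∀ x y, tgt (ve x y) = y

namespace MG

variable {α V : Type} [Fintype V] (g : MG α V)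

/-- The simple graph of an edge set. -/
def gr (T : Finset α) : SimpleGraph V :=
  SimpleGraph.fromRel fun a b => ∃ e ∈ T, g.src e = a ∧ g.tgt e = b

/-- Reachability. -/
def Reach (T : Finset α) (a b : V) : Prop := (g.gr T).Reachable a b

/-- Number of components. -/
noncomputable def k (T : Finset α) : ℕ := Nat.card (g.gr T).ConnectedComponent

/-- The edge has exactly one end in `S`. -/
def Cross (S : Finset V) (e : α) : Prop := ¬ (g.src e ∈ S ↔ g.tgt e ∈ S)

/-- No edge of `T` leaves `S`. -/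
def Closed (T : Finset α) (S : Finset V) : Prop := ∀ e ∈ T, ¬ g.Cross S e

/-- The component of a vertex. -/
noncomputable def blk (T : Finset α) (v : V) : Finset V := univ.filter (g.Reach T v)

/-- Size of the edge boundary. -/
noncomputable def bd (W : Finset α) (S : Finset V) : ℕ := (W.filter (g.Cross S)).card

/-- Edges inside a set. -/
noncomputable def ins (W : Finset α) (Y : Finset V) : Finset α :=
  W.filter fun e => g.src e ∈ Y ∧ g.tgt e ∈ Y

/-- Number of marked classes in a set. -/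
noncomputable def jc (Λ : Finset α) (J S : Finset V) : ℕ := ((S ∩ J).image (g.blk Λ)).card

/-- The ends of every edge of `T` are joined in `T'`. -/
def Sub (T T' : Finset α) : Prop := ∀ e ∈ T, g.Reach T' (g.src e) (g.tgt e)

variable {g} {T T' Λ W : Finset α} {S S' D Y J : Finset V} {a b c : V} {e : α}

theorem Reach.rfl : g.Reach T a a := SimpleGraph.Reachable.refl _
theorem Reach.symm (h : g.Reach T a b) : g.Reach T b a := SimpleGraph.Reachable.symm h
theorem Reach.trans (h : g.Reach T a b) (h' : g.Reach T b c) : g.Reach T a c :=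
  SimpleGraph.Reachable.trans h h'

theorem reach_edge (he : e ∈ T) : g.Reach T (g.src e) (g.tgt e) := by
  by_cases h : g.src e = g.tgt e
  · rw [h]; exact Reach.rfl
  · exact SimpleGraph.Adj.reachable
      ((SimpleGraph.fromRel_adj _ _ _).2 ⟨h, Or.inl ⟨e, he, rfl, rfl⟩⟩)

theorem Reach.ind {R : V → V → Prop} (hr : ∀ a, R a a) (hs : ∀ a b, R a b → R b a)
    (ht : ∀ a b c, R a b → R b c → R a c) (he : ∀ e ∈ T, R (g.src e) (g.tgt e))
    (h : g.Reach T a b) : R a b := by
  unfold Reach at h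
  rw [SimpleGraph.reachable_iff_reflTransGen] at h
  induction h with
  | refl => exact hr _
  | tail _ hyz ih =>
    refine ht _ _ _ ih ?_
    obtain ⟨-, ⟨e, h1, rfl, rfl⟩ | ⟨e, h1, rfl, rfl⟩⟩ := (SimpleGraph.fromRel_adj _ _ _).1 hyz
    · exact he e h1
    · exact hs _ _ (he e h1)

theorem Sub.reach (h : g.Sub T T') (h' : g.Reach T a b) : g.Reach T' a b :=
  h'.ind (R := g.Reach T') (fun _ => Reach.rfl) (fun _ _ => Reach.symm)
    (fun _ _ _ => Reach.trans) h

theorem sub_of_subset (h : T ⊆ T') : g.Sub T T' := fun _ he => reach_edge (h he)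

theorem Reach.mono (h' : g.Reach T a b) (h : T ⊆ T') : g.Reach T' a b :=
  (sub_of_subset h).reach h'

theorem Sub.trans {T'' : Finset α} (h : g.Sub T T') (h' : g.Sub T' T'') : g.Sub T T'' :=
  fun e he => h'.reach (h e he)

theorem Sub.union {T'' : Finset α} (h : g.Sub T T'') (h' : g.Sub T' T'') : g.Sub (T ∪ T') T'' :=
  fun e he => (mem_union.1 he).elim (h e) (h' e)

theorem Sub.insert (h : g.Sub T T') (h' : g.Reach T' (g.src e) (g.tgt e)) :
    g.Sub (insert e T) T' := fun x hx => by
  rcases mem_insert.1 hx with rfl | hx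
  · exact h'
  · exact h x hx

theorem Sub.union_right (h : g.Sub T T') (A : Finset α) : g.Sub (T ∪ A) (T' ∪ A) :=
  (h.trans (sub_of_subset subset_union_left)).union (sub_of_subset subset_union_right)

theorem Closed.reach (h : g.Closed T S) (h' : g.Reach T a b) : a ∈ S ↔ b ∈ S :=
  h'.ind (R := fun a b => a ∈ S ↔ b ∈ S) (fun _ => Iff.rfl) (fun _ _ => Iff.symm)
    (fun _ _ _ => Iff.trans) fun e he => not_not.1 (h e he)

theorem Closed.sub (h : g.Closed T' S) (h' : g.Sub T T') : g.Closed T S :=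
  fun e he => not_not.2 (h.reach (h' e he))

theorem Closed.mono (h : g.Closed T' S) (h' : T ⊆ T') : g.Closed T S := fun e he => h e (h' he)

theorem Closed.sdiff (h : g.Closed T S) (h' : g.Closed T S') : g.Closed T (S \ S') := fun e he => by
  have := h e he; have := h' e he
  simp only [Cross, mem_sdiff] at *; tauto

theorem Closed.union (h : g.Closed T S) (h' : g.Closed T' S) : g.Closed (T ∪ T') S :=
  fun e he => (mem_union.1 he).elim (h e) (h' e)

theorem Closed.insert (h : g.Closed T S) (h' : ¬ g.Cross S e) : g.Closed (insert e T) S :=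
  fun x hx => by
    rcases mem_insert.1 hx with rfl | hx
    · exact h'
    · exact h x hx

theorem Closed.biUnion {ι : Type} {I : Finset ι} {f : ι → Finset V}
    (h : ∀ i ∈ I, g.Closed T (f i)) : g.Closed T (I.biUnion f) := fun e he => by
  simp only [Cross, mem_biUnion, not_not]
  exact exists_congr fun i => and_congr_right fun hi => not_not.1 (h i hi e he)

theorem closed_ins : g.Closed (g.ins W Y) Y := fun e he => by
  have := (mem_filter.1 he).2
  simp only [Cross]; tauto

theorem exists_cross (h : g.Reach T a b) (ha : a ∈ S) (hb : b ∉ S) : ∃ e ∈ T, g.Cross S e := by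
  by_contra hn
  push Not at hn
  exact hb ((Closed.reach hn h).1 ha)

@[simp] theorem mem_blk : b ∈ g.blk T a ↔ g.Reach T a b := by simp [blk]

theorem self_mem_blk : a ∈ g.blk T a := mem_blk.2 Reach.rfl

theorem blk_eq_iff : g.blk T a = g.blk T b ↔ g.Reach T a b := by
  constructor
  · intro h; rw [← mem_blk, h]; exact self_mem_blk
  · intro h; ext x; simp only [mem_blk]; exact ⟨h.symm.trans, h.trans⟩

theorem closed_blk : g.Closed T (g.blk T a) := fun e he => by
  simp only [Cross, mem_blk, not_not]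
  exact ⟨fun h => h.trans (reach_edge he), fun h => h.trans (reach_edge he).symm⟩

theorem Closed.blk_subset (h : g.Closed T S) (ha : a ∈ S) : g.blk T a ⊆ S :=
  fun _ hx => (h.reach (mem_blk.1 hx)).1 ha

theorem Sub.blk_subset (h : g.Sub T T') : g.blk T a ⊆ g.blk T' a :=
  fun _ hx => mem_blk.2 (h.reach (mem_blk.1 hx))

theorem k_eq_card (T : Finset α) : g.k T = (univ.image (g.blk T)).card :=
  card_comp fun _ _ => blk_eq_iff

theorem k_insert : (g.Reach T (g.src e) (g.tgt e) → g.k (insert e T) = g.k T) ∧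
    (¬ g.Reach T (g.src e) (g.tgt e) → g.k (insert e T) + 1 = g.k T) := by
  refine card_update fun x y => ?_
  simp only [gr, SimpleGraph.fromRel_adj, mem_insert, exists_eq_or_imp, eq_comm (a := g.src e),
    eq_comm (a := g.tgt e)]
  generalize (∃ a ∈ T, g.src a = x ∧ g.tgt a = y) = P
  generalize (∃ a ∈ T, g.src a = y ∧ g.tgt a = x) = Q
  tauto

theorem isK (g : MG α V) : IsK g.k := by
  have key : ∀ A e, g.k (insert e A) = g.k A ∨ g.k (insert e A) + 1 = g.k A := fun A e => by
    have := g.k_insert (T := A) (e := e); tauto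
  refine ⟨fun A e => by have := key A e; omega, fun A e => by have := key A e; omega, ?_⟩
  intro A B e hAB h1
  refine k_insert.1 (Reach.mono ?_ hAB)
  by_contra hn
  have := k_insert.2 hn
  omega

theorem k_congr (h : g.Sub T T') (h' : g.Sub T' T) : g.k T = g.k T' := by
  rw [k_eq_card, k_eq_card]
  congr 2
  funext a
  exact Subset.antisymm h.blk_subset h'.blk_subset

theorem Sub.k_le (h : g.Sub T T') : g.k T' ≤ g.k T := by
  rw [k_congr (sub_of_subset subset_union_right) (h.union (sub_of_subset Subset.rfl))]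
  exact g.isK.anti subset_union_left

theorem cross_ve {x y : V} : g.Cross S (g.ve x y) ↔ ¬ (x ∈ S ↔ y ∈ S) := by
  simp [Cross, g.src_ve, g.tgt_ve]

theorem bd_split (h : S ⊆ Y) :
    g.bd W S + g.bd W (Y \ S) = g.bd W Y + 2 * g.bd (g.ins W Y) S := by
  unfold bd ins
  rw [filter_filter]
  simp only [card_filter, mul_sum, ← sum_add_distrib]
  refine sum_congr rfl fun e _ => ?_
  have h1 := @h (g.src e)
  have h2 := @h (g.tgt e)
  simp only [Cross, mem_sdiff]
  by_cases a1 : g.src e ∈ S <;> by_cases a2 : g.tgt e ∈ S <;> by_cases a3 : g.src e ∈ Y <;>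
    by_cases a4 : g.tgt e ∈ Y <;> simp_all

theorem bd_compl (h : S ⊆ Y) : g.bd (g.ins W Y) (Y \ S) = g.bd (g.ins W Y) S := by
  unfold bd
  congr 1
  refine filter_congr fun e he => ?_
  have := (mem_filter.1 he).2
  simp only [Cross, mem_sdiff]; tauto

theorem bd_mono (h : W ⊆ T) : g.bd W S ≤ g.bd T S := card_le_card (filter_subset_filter _ h)

theorem bd_eq_zero : g.bd W S = 0 ↔ g.Closed W S := by
  simp [bd, Closed, filter_eq_empty_iff]

theorem bd_pos : 1 ≤ g.bd W S ↔ ∃ e ∈ W, g.Cross S e := by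
  rw [Nat.one_le_iff_ne_zero, Ne, bd_eq_zero]; simp [Closed]

theorem jc_mono (h : S ⊆ S') : g.jc Λ J S ≤ g.jc Λ J S' :=
  card_le_card (image_subset_image (inter_subset_inter_right h))

theorem jc_eq_zero : g.jc Λ J S = 0 ↔ Disjoint S J := by
  simp [jc, disjoint_iff_inter_eq_empty]

theorem jc_pos : 1 ≤ g.jc Λ J S ↔ ∃ x ∈ S, x ∈ J := by
  rw [Nat.one_le_iff_ne_zero, Ne, jc_eq_zero, not_disjoint_iff]

theorem jc_union (h : g.Closed Λ S) (hd : Disjoint S S') :
    g.jc Λ J (S ∪ S') = g.jc Λ J S + g.jc Λ J S' := by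
  unfold jc
  rw [union_inter_distrib_right, image_union, card_union_of_disjoint]
  rw [disjoint_left]
  intro B h1 h2
  obtain ⟨x, hx, rfl⟩ := mem_image.1 h1
  obtain ⟨y, hy, hxy⟩ := mem_image.1 h2
  exact disjoint_left.1 hd ((h.reach (blk_eq_iff.1 hxy)).2 (mem_inter.1 hx).1) (mem_inter.1 hy).1

theorem jc_split (h : g.Closed Λ S) (hS : S ⊆ Y) :
    g.jc Λ J Y = g.jc Λ J S + g.jc Λ J (Y \ S) := by
  rw [← jc_union h disjoint_sdiff, union_sdiff_of_subset hS]

theorem jc_two (h : 2 ≤ g.jc Λ J S) : ∃ x ∈ S, ∃ y ∈ S, x ∈ J ∧ y ∈ J ∧ ¬ g.Reach Λ x y := by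
  obtain ⟨B, hB, C, hC, hne⟩ := one_lt_card.1 h
  obtain ⟨x, hx, rfl⟩ := mem_image.1 hB
  obtain ⟨y, hy, rfl⟩ := mem_image.1 hC
  exact ⟨x, (mem_inter.1 hx).1, y, (mem_inter.1 hy).1, (mem_inter.1 hx).2, (mem_inter.1 hy).2,
    fun hh => hne (blk_eq_iff.2 hh)⟩

theorem two_le_jc {x y : V} (hx : x ∈ S) (hy : y ∈ S) (hx' : x ∈ J) (hy' : y ∈ J)
    (h : ¬ g.Reach Λ x y) : 2 ≤ g.jc Λ J S :=
  one_lt_card.2 ⟨_, mem_image_of_mem _ (mem_inter.2 ⟨hx, hx'⟩), _,
    mem_image_of_mem _ (mem_inter.2 ⟨hy, hy'⟩), fun hh => h (blk_eq_iff.1 hh)⟩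

end MG

end Pool.Agent.P.MP_e0c037_lc.FL
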