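import Mathlib

/-! Fourth and eighth roots. -/

namespace Pool.Agent.P.MP_e0c037_lc.FL

/-- Fourth root. -/
noncomputable def psi (n : ℕ) : ℝ := √(√(n : ℝ))

/-- Eighth root. -/
noncomputable def phi (n : ℕ) : ℝ := √(psi n)

theorem psi_nonneg (n : ℕ) : 0 ≤ psi n := Real.sqrt_nonneg _

theorem phi_nonneg (n : ℕ) : 0 ≤ phi n := Real.sqrt_nonneg _

theorem psi_pow (n : ℕ) : psi n ^ 4 = n := by
  rw [show 4 = 2 * 2 from rfl, pow_mul, psi, Real.sq_sqrt (Real.sqrt_nonneg _),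
    Real.sq_sqrt (Nat.cast_nonneg n)]

theorem phi_sq (n : ℕ) : phi n ^ 2 = psi n := Real.sq_sqrt (psi_nonneg n)

theorem phi_pow (n : ℕ) : phi n ^ 8 = n := by
  rw [show 8 = 2 * 4 from rfl, pow_mul, phi_sq, psi_pow]

theorem psi_mono {m n : ℕ} (h : m ≤ n) : psi m ≤ psi n :=
  Real.sqrt_le_sqrt (Real.sqrt_le_sqrt (Nat.cast_le.2 h))

theorem phi_mono {m n : ℕ} (h : m ≤ n) : phi m ≤ phi n := Real.sqrt_le_sqrt (psi_mono h)

theorem psi_one : psi 1 = 1 := by simp [psi]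

theorem one_le_psi {n : ℕ} (h : 1 ≤ n) : 1 ≤ psi n := psi_one ▸ psi_mono h

theorem one_le_phi {n : ℕ} (h : 1 ≤ n) : 1 ≤ phi n := Real.one_le_sqrt.2 (one_le_psi h)

theorem psi_add {x m : ℕ} (h : x ≤ m) : psi (x + m) ≤ psi m + psi x / 5 := by
  have ha := psi_nonneg x
  have hb := psi_mono h
  refine le_of_pow_le_pow_left₀ (n := 4) (by norm_num) (by linarith) ?_
  rw [psi_pow, Nat.cast_add, ← psi_pow x, ← psi_pow m]
  obtain ⟨t, ht, e⟩ : ∃ t, 0 ≤ t ∧ psi m = psi x + t := ⟨psi m - psi x, by linarith, by ring⟩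
  rw [e]
  generalize psi x = b at *
  have : (b + t + b / 5) ^ 4 - (b ^ 4 + (b + t) ^ 4) = 46 / 625 * b ^ 4 + 364 / 125 * b ^ 3 * t +
    66 / 25 * b ^ 2 * t ^ 2 + 4 / 5 * b * t ^ 3 := by ring
  have : 0 ≤ 46 / 625 * b ^ 4 + 364 / 125 * b ^ 3 * t +
    66 / 25 * b ^ 2 * t ^ 2 + 4 / 5 * b * t ^ 3 := by positivity
  linarith

theorem phi_drop {s t : ℕ} (h1 : 1 ≤ s) (h : 2 * s ≤ t) :
    2 / (phi s / 3) + 78 / phi t ≤ 78 / phi s := by
  have a1 := one_le_phi h1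
  have a2 : 13 / 12 * phi s ≤ phi t := by
    refine le_of_pow_le_pow_left₀ (n := 8) (by norm_num) (phi_nonneg t) ?_
    rw [mul_pow, phi_pow, phi_pow]
    have : (2 * s : ℝ) ≤ t := by exact_mod_cast h
    have : (0 : ℝ) ≤ s := Nat.cast_nonneg s
    nlinarith
  have a3 : 78 / phi t ≤ 78 / (13 / 12 * phi s) :=
    div_le_div_of_nonneg_left (by norm_num) (by positivity) a2
  have a4 : 2 / (phi s / 3) + 78 / (13 / 12 * phi s) = 78 / phi s := by field_simp; norm_num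
  linarith

theorem le_of_psi {x : ℕ} (h : psi x ≤ 4) : x ≤ 256 := by
  have := pow_le_pow_left₀ (psi_nonneg x) h 4
  rw [psi_pow] at this
  exact_mod_cast this.trans_eq (by norm_num : (4 : ℝ) ^ 4 = (256 : ℕ))

theorem psi_big {p : ℕ} (h : 8 ≤ psi p) : 512 * psi p ≤ p := by
  rw [← psi_pow p]
  have := pow_le_pow_left₀ (by norm_num) h 3
  nlinarith

theorem core_ineq {m β f : ℝ} (hm : 1 ≤ m) (hβ : 0 ≤ β) (hf : 0 < f) (h : f ^ 2 ≤ m + β) :
    m + β ≤ m * Real.exp (2 / f * β) := by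
  have h1 : 1 + β / f ≤ Real.exp (β / f) := by linarith [Real.add_one_le_exp (β / f)]
  have h0 : 0 ≤ β / f := div_nonneg hβ hf.le
  have h2 : (1 + β / f) ^ 2 ≤ Real.exp (2 / f * β) := by
    have : Real.exp (2 / f * β) = Real.exp (β / f) ^ 2 := by
      rw [← Real.exp_nat_mul]; congr 1; push_cast; ring
    rw [this]
    exact pow_le_pow_left₀ (by linarith) h1 2
  have h3 : f ^ 2 ≤ 2 * m * f + m * β := by
    by_cases hf2 : 1 / 2 ≤ f
    · nlinarith
    · push Not at hf2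
      nlinarith
  have h4 : m + β ≤ m * (1 + β / f) ^ 2 := by
    have e1 : m * (1 + β / f) ^ 2 = m + β * (2 * m * f + m * β) / f ^ 2 := by
      field_simp; ring
    rw [e1]
    have : β ≤ β * (2 * m * f + m * β) / f ^ 2 := by
      rw [le_div_iff₀ (by positivity)]
      exact mul_le_mul_of_nonneg_left h3 hβ
    linarith
  exact h4.trans (mul_le_mul_of_nonneg_left h2 (by linarith))

end Pool.Agent.P.MP_e0c037_lc.FL
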