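import Pool.Agent.P.MP_e0c037_lc.FL.Basic
import Pool.Agent.P.MP_e0c037_lc.FL.Psi

/-! Counting two-sided connected cuts by successive merging of blocks. -/

set_option linter.unusedSectionVars false

namespace Pool.Agent.P.MP_e0c037_lc.FL

open Finset
open scoped Classical

namespace MG

variable {α V : Type} [Fintype V] (g : MG α V)

/-- `A` separates `a` from `b` inside `Y`, and both sides hang together. -/
def Val (Λ W : Finset α) (Y : Finset V) (a b : V) (A : Finset V) : Prop :=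
  a ∈ A ∧ b ∉ A ∧ A ⊆ Y ∧ ∀ D ⊆ Y, g.Closed Λ D → D.Nonempty → a ∉ D → b ∉ D →
    (D ⊆ A ∨ Disjoint D A) → ∃ e ∈ W, g.Cross D e ∧ ¬ g.Cross A e

/-- Total height of the ends of the boundary edges. -/
noncomputable def pot (H : Finset V → ℝ) (T W : Finset α) (A : Finset V) : ℝ :=
  ∑ e ∈ W.filter (g.Cross A), (H (g.blk T (g.src e)) + H (g.blk T (g.tgt e)))

variable {g} {T Λ W : Finset α} {A Y : Finset V} {a b v : V} {e : α}

theorem cross_blk (he : g.Cross (g.blk T v) e) :
    ¬ g.Reach T (g.src e) (g.tgt e) ∧ ∃ u, (u = g.src e ∨ u = g.tgt e) ∧ ¬ g.Reach T v u ∧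
      g.Reach (insert e T) v u := by
  refine ⟨fun h => he (closed_blk.reach h), ?_⟩
  have h1 : g.Reach (insert e T) (g.src e) (g.tgt e) := reach_edge (mem_insert_self _ _)
  simp only [Cross, mem_blk] at he
  by_cases h : g.Reach T v (g.src e)
  · exact ⟨_, Or.inr rfl, by tauto, (h.mono (subset_insert _ _)).trans h1⟩
  · have h' : g.Reach T v (g.tgt e) := by tauto
    exact ⟨_, Or.inl rfl, h, (h'.mono (subset_insert _ _)).trans h1.symm⟩

theorem pot_drop {H : Finset V → ℝ} (Hm : ∀ S S', S.Nonempty → S ⊆ S' → H S' ≤ H S) {u : V}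
    (hu : g.Reach (insert e T) v u) {c : ℝ}
    (hc : c + H (g.blk T v ∪ g.blk T u) ≤ H (g.blk T v)) :
    g.pot H (insert e T) W A + c * ((W.filter (g.Cross (g.blk T v))).filter (g.Cross A)).card ≤
      g.pot H T W A := by
  have h1 : ∀ x, H (g.blk (insert e T) x) ≤ H (g.blk T x) := fun x =>
    Hm _ _ ⟨x, self_mem_blk⟩ (sub_of_subset (subset_insert _ _)).blk_subset
  have h2 : ∀ x ∈ g.blk T v, H (g.blk (insert e T) x) + c ≤ H (g.blk T x) := fun x hx => by
    rw [mem_blk] at hx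
    rw [← blk_eq_iff.2 hx, ← blk_eq_iff.2 (hx.mono (subset_insert e T))]
    have := Hm (g.blk T v ∪ g.blk T u) (g.blk (insert e T) v) ⟨v, mem_union_left _ self_mem_blk⟩
      (union_subset (sub_of_subset (subset_insert _ _)).blk_subset
        (blk_eq_iff.2 hu ▸ (sub_of_subset (subset_insert _ _)).blk_subset))
    linarith
  unfold pot
  rw [filter_comm, card_filter, Nat.cast_sum, mul_sum, ← sum_add_distrib]
  refine sum_le_sum fun x _ => ?_
  have := h1 (g.src x)
  have := h1 (g.tgt x)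
  split_ifs with hx
  · by_cases h : g.src x ∈ g.blk T v
    · have := h2 _ h; push_cast; linarith
    · have := h2 (g.tgt x) (by unfold Cross at hx; tauto); push_cast; linarith
  · push_cast; linarith

theorem boruvka {H : Finset V → ℝ} (H0 : ∀ S, 0 ≤ H S)
    (Hm : ∀ S S', S.Nonempty → S ⊆ S' → H S' ≤ H S)
    (hW : ∀ e ∈ W, g.src e ∈ Y ∧ g.tgt e ∈ Y)
    (ch : ∀ T, Λ ⊆ T → g.Closed T Y → ∀ v ∈ Y, ¬ g.Reach T v a → ¬ g.Reach T v b →
      ∃ v ∈ Y, ¬ g.Reach T v a ∧ ¬ g.Reach T v b ∧ ∀ u ∈ Y, ¬ g.Reach T v u → ∃ f : ℝ, 0 < f ∧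
        f ^ 2 ≤ g.bd W (g.blk T v) ∧ 2 / f + H (g.blk T v ∪ g.blk T u) ≤ H (g.blk T v))
    (n : ℕ) : ∀ T, g.k T = n → Λ ⊆ T → g.Closed T Y →
      ∑ A ∈ univ.filter fun A => g.Val Λ W Y a b A ∧ g.Closed T A,
        Real.exp (-g.pot H T W A) ≤ 1 := by
  induction n using Nat.strong_induction_on with
  | _ n ih =>
  intro T hn hT hY
  by_cases hv : ∃ v ∈ Y, ¬ g.Reach T v a ∧ ¬ g.Reach T v b
  swap
  · push Not at hv
    refine (sum_le_sum_of_subset_of_nonneg (t := {g.blk T a}) ?_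
      fun _ _ _ => (Real.exp_pos _).le).trans ?_
    · intro A hA
      obtain ⟨⟨h1, h2, h3, -⟩, h4⟩ := (mem_filter.1 hA).2
      refine mem_singleton.2 (Subset.antisymm (fun x hx => mem_blk.2 ?_) (h4.blk_subset h1))
      by_contra hh
      exact h2 ((h4.reach (hv x (h3 hx) fun h => hh h.symm)).1 hx)
    · rw [sum_singleton, Real.exp_le_one_iff, neg_nonpos]
      exact sum_nonneg fun _ _ => add_nonneg (H0 _) (H0 _)
  obtain ⟨v0, hv0, h0⟩ := hv
  obtain ⟨v, hv, ha, hb, hf⟩ := ch T hT hY v0 hv0 h0.1 h0.2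
  set X := W.filter (g.Cross (g.blk T v)) with hX
  set F := univ.filter fun A => g.Val Λ W Y a b A ∧ g.Closed T A with hF
  have key : ∀ A ∈ F, 1 ≤ X.card ∧ X.card * Real.exp (-g.pot H T W A) ≤
      ∑ e ∈ X.filter fun e => ¬ g.Cross A e, Real.exp (-g.pot H (insert e T) W A) := by
    intro A hA
    obtain ⟨⟨-, -, -, h3⟩, h4⟩ := (mem_filter.1 hA).2
    obtain ⟨e0, he0⟩ := h3 (g.blk T v) (hY.blk_subset hv) (closed_blk.mono hT) ⟨v, self_mem_blk⟩
      (by simpa) (by simpa) (by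
        by_cases h : v ∈ A
        · exact Or.inl (h4.blk_subset h)
        · exact Or.inr (disjoint_left.2 fun x hx hx' => h ((h4.reach (mem_blk.1 hx)).2 hx')))
    have p1 : 1 ≤ (X.filter fun e => ¬ g.Cross A e).card :=
      card_pos.2 ⟨e0, by simp [hX, he0]⟩
    have p2 := card_filter_add_card_filter_not (s := X) (g.Cross A)
    refine ⟨by omega, ?_⟩
    have p1' : (1 : ℝ) ≤ (X.filter fun e => ¬ g.Cross A e).card := by exact_mod_cast p1
    have p2' : ((X.filter fun e => ¬ g.Cross A e).card : ℝ) + (X.filter (g.Cross A)).card =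
      X.card := by exact_mod_cast (add_comm _ _).trans p2
    refine le_of_mul_le_mul_left ?_ (by linarith : (0 : ℝ) < (X.filter fun e => ¬ g.Cross A e).card)
    rw [mul_sum, ← nsmul_eq_mul]
    refine card_nsmul_le_sum _ _ _ fun e he => ?_
    have he' := mem_filter.1 (mem_filter.1 he).1
    obtain ⟨-, u, hu, hu1, hu2⟩ := cross_blk he'.2
    obtain ⟨f, f0, f1, f2⟩ := hf u (by have := hW e he'.1; rcases hu with rfl | rfl <;> tauto) hu1
    have c1 := core_ineq p1' (Nat.cast_nonneg _) f0 (by rw [p2']; exact f1)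
    have c2 := pot_drop (W := W) (A := A) Hm hu2 f2
    rw [p2'] at c1
    refine (mul_le_mul_of_nonneg_right c1 (Real.exp_pos _).le).trans ?_
    rw [mul_assoc, ← Real.exp_add]
    exact mul_le_mul_of_nonneg_left (Real.exp_le_exp.2 (by linarith)) (by linarith)
  rcases F.eq_empty_or_nonempty with h | ⟨A0, hA0⟩
  · simp [h]
  have p0 : (0 : ℝ) < X.card := by exact_mod_cast (key A0 hA0).1
  refine le_of_mul_le_mul_left ?_ p0
  rw [mul_sum, mul_one]
  refine (sum_le_sum fun A hA => (key A hA).2).trans ?_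
  rw [sum_comm' (t' := X) (s' := fun e => F.filter fun A => ¬ g.Cross A e) (by
    intro A e; simp only [mem_filter (s := X), mem_filter (s := F)]; tauto)]
  refine (sum_le_card_nsmul _ _ 1 fun e he => ?_).trans (by simp)
  have he' := mem_filter.1 he
  have hk := k_insert.2 (cross_blk he'.2).1
  refine le_trans (sum_le_sum_of_subset_of_nonneg ?_ fun _ _ _ => (Real.exp_pos _).le)
    (ih _ (by omega) (insert e T) rfl (hT.trans (subset_insert _ _))
      (hY.insert (by have := hW e he'.1; unfold Cross; tauto)))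
  intro A hA
  simp only [hF, mem_filter, mem_univ, true_and] at hA ⊢
  exact ⟨hA.1.1, hA.1.2.insert hA.2⟩

end MG

end Pool.Agent.P.MP_e0c037_lc.FL
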