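import Mathlib

/-! Signed expectations over subsets, Moebius expansion and the anchored-collection bound. -/

namespace Pool.Agent.P.MP_e0c037_lc.FL

open Finset
open scoped Classical

variable {α : Type}

/-- Each element is dropped with weight `d` and kept with weight `1 - d`. -/
noncomputable def Ex (d : ℝ) (U : Finset α) (h : Finset α → ℝ) : ℝ :=
  ∑ A ∈ U.powerset, d ^ (U \ A).card * (1 - d) ^ A.card * h A

variable {d : ℝ} {U W K : Finset α} {h h' : Finset α → ℝ} {e : α}

theorem Ex_empty : Ex d ∅ h = h ∅ := by simp [Ex]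

theorem Ex_insert (he : e ∉ U) :
    Ex d (insert e U) h = (1 - d) * Ex d U (fun A => h (insert e A)) + d * Ex d U h := by
  unfold Ex
  rw [sum_powerset_insert he, mul_sum, mul_sum, add_comm]
  congr 1
  · refine sum_congr rfl fun A hA => ?_
    have h1 : e ∉ A := fun hh => he (mem_powerset.1 hA hh)
    rw [card_insert_of_notMem h1, insert_sdiff_insert, sdiff_insert_of_notMem he]
    ring
  · refine sum_congr rfl fun A hA => ?_
    have h1 : e ∉ A := fun hh => he (mem_powerset.1 hA hh)
    rw [insert_sdiff_of_notMem _ h1, card_insert_of_notMem (by simp [he])]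
    ring

theorem Ex_congr (hh : ∀ A ⊆ U, h A = h' A) : Ex d U h = Ex d U h' :=
  sum_congr rfl fun A hA => by rw [hh A (mem_powerset.1 hA)]

theorem Ex_sub : Ex d U (fun A => h A - h' A) = Ex d U h - Ex d U h' := by
  unfold Ex
  rw [← sum_sub_distrib]
  exact sum_congr rfl fun A _ => by ring

theorem Ex_mul (c : ℝ) : Ex d U (fun A => c * h A) = c * Ex d U h := by
  unfold Ex
  rw [mul_sum]
  exact sum_congr rfl fun A _ => by ring

/-- Moebius transform. -/
noncomputable def mob (h : Finset α → ℝ) (K : Finset α) : ℝ :=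
  ∑ A ∈ K.powerset, (-1) ^ (K \ A).card * h A

theorem mob_insert (he : e ∉ K) :
    mob h (insert e K) = mob (fun A => h (insert e A)) K - mob h K := by
  unfold mob
  rw [sum_powerset_insert he, add_comm, sub_eq_add_neg, ← sum_neg_distrib]
  congr 1
  · refine sum_congr rfl fun A hA => ?_
    rw [insert_sdiff_insert, sdiff_insert_of_notMem he]
  · refine sum_congr rfl fun A hA => ?_
    have h1 : e ∉ A := fun hh => he (mem_powerset.1 hA hh)
    rw [insert_sdiff_of_notMem _ h1, card_insert_of_notMem (by simp [he])]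
    ring

theorem sum_mob (D : Finset α) : ∀ h : Finset α → ℝ, ∑ K ∈ D.powerset, mob h K = h D := by
  induction D using Finset.induction_on with
  | empty => intro h; simp [mob]
  | insert e D he ih =>
    intro h
    rw [sum_powerset_insert he, sum_congr rfl fun K hK =>
      mob_insert (h := h) fun hh => he (mem_powerset.1 hK hh), sum_sub_distrib, ih, ih]
    ring

theorem abs_mob (hb : ∀ A, |h A| ≤ 1) : |mob h K| ≤ 2 ^ K.card := by
  refine (abs_sum_le_sum_abs _ _).trans ?_
  refine (sum_le_card_nsmul _ _ 1 fun A _ => ?_).trans (by simp)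
  rw [abs_mul, abs_pow, abs_neg, abs_one, one_pow, one_mul]
  exact hb A

theorem mob_pivot (h0 : mob h K ≠ 0) (he : e ∈ K) : ∃ A ⊆ K.erase e, h (insert e A) ≠ h A := by
  by_contra hn
  push Not at hn
  apply h0
  rw [← insert_erase he, mob_insert (notMem_erase e K), sub_eq_zero]
  exact sum_congr rfl fun A hA => by simp only [hn A (mem_powerset.1 hA)]

theorem mob_ne (h0 : mob h K ≠ 0) : ∃ A ⊆ K, h A ≠ 0 := by
  obtain ⟨A, hA, h1⟩ := exists_ne_zero_of_sum_ne_zero h0
  exact ⟨A, mem_powerset.1 hA, right_ne_zero_of_mul h1⟩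

theorem Ex_expand (hW : W ⊆ U) (h' : Finset α → ℝ) :
    Ex d U (fun A => h A * h' (W \ A)) =
      ∑ K ∈ W.powerset, mob h' K * d ^ K.card * Ex d (U \ K) h := by
  unfold Ex
  simp only [← sum_mob _ h', mul_sum]
  rw [sum_comm' (t' := W.powerset) (s' := fun K => (U \ K).powerset)]
  · refine sum_congr rfl fun K hK => sum_congr rfl fun A hA => ?_
    rw [mem_powerset] at hK hA
    have : (U \ A).card = K.card + ((U \ K) \ A).card := by
      rw [← card_union_of_disjoint (disjoint_sdiff.mono_right sdiff_subset)]
      congr 1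
      ext x
      have := @hK x; have := @hA x; have := @hW x
      simp only [mem_sdiff, mem_union] at *
      tauto
    rw [this, pow_add]
    ring
  · intro A K
    simp only [mem_powerset, subset_sdiff, disjoint_comm (a := A)]
    constructor
    · tauto
    · tauto

theorem sum_union_le' {β : Type} [DecidableEq β] {f : β → ℝ} (hf : ∀ x, 0 ≤ f x) (A B : Finset β) :
    ∑ x ∈ A ∪ B, f x ≤ ∑ x ∈ A, f x + ∑ x ∈ B, f x := by
  rw [← sum_union_inter]
  exact le_add_of_nonneg_right (sum_nonneg fun x _ => hf x)

theorem sum_biUnion_le' {β ι : Type} [DecidableEq β] {f : β → ℝ} (hf : ∀ x, 0 ≤ f x)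
    (I : Finset ι) (s : ι → Finset β) :
    ∑ x ∈ I.biUnion s, f x ≤ ∑ i ∈ I, ∑ x ∈ s i, f x := by
  induction I using Finset.induction_on with
  | empty => simp
  | insert i I hi ih =>
    rw [biUnion_insert, sum_insert hi]
    exact (sum_union_le' hf _ _).trans (by linarith)

section Anch

variable {ι Γ : Type} (w : ι → ℝ) (att : ι → Γ → Prop) (out : ι → Finset Γ)

/-- The collection can be grown from the anchors `G`. -/
def Grown (G : Finset Γ) (C : Finset ι) : Prop :=
  ∀ D ⊆ C, D.Nonempty → ∃ i ∈ D, ∃ c, (c ∈ G ∨ ∃ j ∈ C, j ∉ D ∧ c ∈ out j) ∧ att i c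

theorem anchored (hw : ∀ i, 0 ≤ w i) (n : ℕ) : ∀ I : Finset ι, I.card = n →
    (∀ c, ∑ i ∈ I.filter (att · c), w i * 2 ^ (out i).card ≤ 1 / 2) → ∀ G : Finset Γ,
    ∑ C ∈ I.powerset.filter (Grown att out G), ∏ i ∈ C, w i ≤ 2 ^ G.card := by
  induction n using Nat.strong_induction_on with
  | _ n ih =>
  intro I hI hs G
  have hp : ∀ C : Finset ι, 0 ≤ ∏ i ∈ C, w i := fun C => prod_nonneg fun i _ => hw i
  induction G using Finset.induction_on with
  | empty =>
    refine (sum_le_sum_of_subset_of_nonneg (t := {∅}) ?_ fun C _ _ => hp C).trans (by simp)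
    intro C hC
    rw [mem_singleton]
    by_contra hn
    obtain ⟨i, -, c, hc, -⟩ := (mem_filter.1 hC).2 C Subset.rfl (nonempty_iff_ne_empty.2 hn)
    rcases hc with hc | ⟨j, h1, h2, -⟩
    · simp at hc
    · exact h2 h1
  | insert c G hc ihG =>
    have h1 : I.powerset.filter (Grown att out (insert c G)) ⊆
        I.powerset.filter (Grown att out G) ∪ (I.filter (att · c)).biUnion fun i =>
          ((I.erase i).powerset.filter (Grown att out (insert c G ∪ out i))).image (insert i) := by
      intro C hC
      rw [mem_filter, mem_powerset] at hC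
      rw [mem_union]
      by_cases hg : Grown att out G C
      · exact Or.inl (mem_filter.2 ⟨mem_powerset.2 hC.1, hg⟩)
      right
      unfold Grown at hg
      simp only [not_forall] at hg
      obtain ⟨D, hD, hne, hno⟩ := hg
      obtain ⟨i, hi, c', hc', ha⟩ := hC.2 D hD hne
      have : c' = c := by
        by_contra hcc
        refine hno ⟨i, hi, c', ?_, ha⟩
        rw [mem_insert, or_assoc] at hc'
        exact hc'.resolve_left hcc
      subst this
      refine mem_biUnion.2 ⟨i, mem_filter.2 ⟨hC.1 (hD hi), ha⟩, mem_image.2 ⟨C.erase i,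
        mem_filter.2 ⟨mem_powerset.2 (erase_subset_erase _ hC.1), ?_⟩, insert_erase (hD hi)⟩⟩
      intro D' hD' hne'
      obtain ⟨j, hj, c'', hc'', ha'⟩ := hC.2 D' (hD'.trans (erase_subset _ _)) hne'
      refine ⟨j, hj, c'', ?_, ha'⟩
      simp only [mem_union, mem_erase]
      rcases hc'' with hh | ⟨l, hl, hl', hh⟩
      · exact Or.inl (Or.inl hh)
      · by_cases hli : l = i
        · subst hli; exact Or.inl (Or.inr hh)
        · exact Or.inr ⟨l, ⟨hli, hl⟩, hl', hh⟩
    refine (sum_le_sum_of_subset_of_nonneg h1 fun C _ _ => hp C).trans ?_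
    refine (sum_union_le' hp _ _).trans ?_
    have h2 := sum_biUnion_le' hp (I.filter (att · c)) fun i =>
      ((I.erase i).powerset.filter (Grown att out (insert c G ∪ out i))).image (insert i)
    have h3 : ∀ i ∈ I.filter (att · c), ∑ C ∈ ((I.erase i).powerset.filter
        (Grown att out (insert c G ∪ out i))).image (insert i), ∏ j ∈ C, w j ≤
        2 ^ (insert c G).card * (w i * 2 ^ (out i).card) := by
      intro i hi
      have hi' := (mem_filter.1 hi).1
      have hn : ∀ C ∈ (I.erase i).powerset.filter (Grown att out (insert c G ∪ out i)),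
          i ∉ C := fun C hC hh => by simpa using mem_powerset.1 (mem_filter.1 hC).1 hh
      rw [sum_image fun C hC C' hC' hh => by
        rw [← erase_insert (hn C hC), hh, erase_insert (hn C' hC')],
        sum_congr rfl fun C hC => prod_insert (hn C hC), ← mul_sum]
      have h4 := ih _ (by rw [← hI]; exact card_erase_lt_of_mem hi') (I.erase i) rfl
        (fun c' => le_trans (sum_le_sum_of_subset_of_nonneg
          (filter_subset_filter _ (erase_subset _ _)) fun j _ _ => by
            have := hw j; positivity) (hs c')) (insert c G ∪ out i)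
      have h5 : (2 : ℝ) ^ (insert c G ∪ out i).card ≤ 2 ^ (insert c G).card * 2 ^ (out i).card := by
        rw [← pow_add]
        exact pow_le_pow_right₀ (by norm_num) (card_union_le _ _)
      nlinarith [hw i]
    have h4 := sum_le_sum h3
    rw [← mul_sum] at h4
    have h5 := hs c
    rw [card_insert_of_notMem hc, pow_succ] at h4 ⊢
    have h6 : (0 : ℝ) < 2 ^ G.card := by positivity
    nlinarith

end Anch

end Pool.Agent.P.MP_e0c037_lc.FL
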