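import Pool.Agent.P.MP_e0c037_lc.FL.Ind
import Pool.Agent.P.MP_e0c037_lc.Main

/-! The sign of the dichromatic polynomial for large `q` and `v ≤ -q`. -/

set_option linter.unusedSectionVars false

namespace Pool.Agent.P.MP_e0c037_lc.FL

open Finset

theorem exists_par {q : ℝ} (hq : Real.exp 33488 ≤ q) : ∃ r m, Par q r m := by
  have q0 : 0 < q := (Real.exp_pos _).trans_le hq
  have h1 : (q ^ ((13 : ℕ) : ℝ)⁻¹) ^ 13 = q := Real.rpow_inv_natCast_pow q0.le (by norm_num)
  have h0 : 0 ≤ q ^ ((13 : ℕ) : ℝ)⁻¹ := Real.rpow_nonneg q0.le _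
  generalize q ^ ((13 : ℕ) : ℝ)⁻¹ = r at h0 h1
  have h2 : Real.exp 2576 ≤ r := by
    refine le_of_pow_le_pow_left₀ (n := 13) (by norm_num) h0 ?_
    rw [h1, ← Real.exp_nat_mul]
    norm_num
    exact hq
  have h3 : (4194304 : ℝ) ≤ Real.exp 16 := by
    have := pow_le_pow_left₀ (by norm_num) Real.exp_one_gt_d9.le 16
    rw [← Real.exp_nat_mul] at this
    norm_num at this ⊢
    linarith
  have h4 : Real.exp 16 ≤ r := (Real.exp_le_exp.2 (by norm_num)).trans h2
  refine ⟨r, Real.exp (-320) / 4, h1, by linarith, by positivity, by linarith, ?_⟩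
  have h5 : Real.exp (-320) ^ 8 * Real.exp 2576 = Real.exp 16 := by
    rw [← Real.exp_nat_mul, ← Real.exp_add]; norm_num
  have h6 : 0 < Real.exp (-320) ^ 8 := by positivity
  have h7 : 4194304 ≤ Real.exp (-320) ^ 8 * r := by nlinarith
  have h8 : 1 ≤ r ^ 12 := one_le_pow₀ (by linarith)
  have h9 : r * r ^ 12 / 2 ≤ q - 1 := by rw [← h1, pow_succ' r 12]; nlinarith
  rw [div_pow]
  generalize Real.exp (-320) ^ 8 = t at *
  have := mul_le_mul_of_nonneg_left h9 h6.le
  have := mul_le_mul_of_nonneg_right h7 (by linarith : 0 ≤ r ^ 12)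
  nlinarith

section

open scoped Classical

variable {α V : Type} [Fintype V] {g : MG α V} {q r m v : ℝ}

theorem sum_split (q v : ℝ) (U : Finset α) : ∀ h : Finset α → ℝ,
    ∑ A ∈ U.powerset, h A * v ^ A.card =
      ∑ B ∈ U.powerset, (v + q) ^ B.card * ∑ A ∈ (U \ B).powerset, h (B ∪ A) * (-q) ^ A.card := by
  induction U using Finset.induction_on with
  | empty => simp
  | insert e U he ih =>
    intro h
    have e1 : ∑ A ∈ U.powerset, h (insert e A) * v ^ (insert e A).card =
        v * ∑ A ∈ U.powerset, h (insert e A) * v ^ A.card := by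
      rw [mul_sum]
      refine sum_congr rfl fun A hA => ?_
      rw [card_insert_of_notMem fun hh => he (mem_powerset.1 hA hh)]; ring
    rw [sum_powerset_insert he, sum_powerset_insert he, e1, ih h, ih fun A => h (insert e A),
      mul_sum, ← sum_add_distrib, ← sum_add_distrib]
    refine sum_congr rfl fun B hB => ?_
    have h1 : e ∉ B := fun hh => he (mem_powerset.1 hB hh)
    have h2 : e ∉ U \ B := fun hh => he (mem_sdiff.1 hh).1
    have e2 : ∑ A ∈ (U \ B).powerset, h (B ∪ insert e A) * (-q) ^ (insert e A).card =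
        -q * ∑ A ∈ (U \ B).powerset, h (insert e (B ∪ A)) * (-q) ^ A.card := by
      rw [mul_sum]
      refine sum_congr rfl fun A hA => ?_
      rw [card_insert_of_notMem fun hh => h2 (mem_powerset.1 hA hh), union_insert]; ring
    rw [insert_sdiff_of_notMem _ h1, sum_powerset_insert h2, e2, card_insert_of_notMem h1,
      insert_sdiff_insert, sdiff_insert_of_notMem he]
    simp only [insert_union]
    ring

theorem flow_eq (hq : q ≠ 1) (U B : Finset α) :
    ∑ A ∈ U.powerset, q ^ g.k (B ∪ A) * (-q) ^ A.card = (1 - q) ^ U.card * g.Zn q U B := by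
  have : 1 - q ≠ 0 := sub_ne_zero.2 hq.symm
  unfold MG.Zn Ex
  rw [mul_sum]
  refine sum_congr rfl fun A hA => ?_
  have e1 : 1 - (1 - q)⁻¹ = -q * (1 - q)⁻¹ := by field_simp; ring
  rw [← card_sdiff_add_card_eq_card (mem_powerset.1 hA), e1, pow_add, mul_pow, inv_pow, inv_pow]
  field_simp

theorem bridge_iff (U : Finset α) :
    (∀ S, g.Closed ∅ S → g.bd U S ≠ 1) ↔ ∀ e ∈ U, g.k (U.erase e) = g.k U := by
  constructor
  · intro h e he
    have h1 := MG.k_insert (g := g) (T := U.erase e) (e := e)
    rw [insert_erase he] at h1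
    refine (h1.1 (by_contra fun hn => ?_)).symm
    refine h (g.blk (U.erase e) (g.src e)) (fun _ hh => by simp at hh) (card_eq_one.2 ⟨e, ?_⟩)
    refine eq_singleton_iff_unique_mem.2 ⟨mem_filter.2 ⟨he, by simp [MG.Cross, hn, MG.Reach.rfl]⟩,
      fun f hf => by_contra fun hh => ?_⟩
    exact MG.closed_blk f (mem_erase.2 ⟨hh, (mem_filter.1 hf).1⟩) (mem_filter.1 hf).2
  · intro h S _ h1
    obtain ⟨e, he⟩ := card_eq_one.1 h1
    have h2 := mem_filter.1 (he ▸ mem_singleton_self e)
    have := MG.k_cross (T := U.erase e) (fun f hf hh => (mem_erase.1 hf).1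
      (mem_singleton.1 (he ▸ mem_filter.2 ⟨(mem_erase.1 hf).2, hh⟩))) h2.2
    rw [insert_erase h2.1, h e h2.1] at this
    omega

theorem sign_sum (hq : Par q r m) (hv : v ≤ -q) (U : Finset α) :
    ((v < -q ∨ ∀ e ∈ U, g.k (U.erase e) = g.k U) →
      0 < (-1) ^ U.card * ∑ A ∈ U.powerset, q ^ g.k A * v ^ A.card) ∧
    (¬ (v < -q ∨ ∀ e ∈ U, g.k (U.erase e) = g.k U) →
      ∑ A ∈ U.powerset, q ^ g.k A * v ^ A.card = 0) := by
  have q1 := hq.one_lt
  rw [← bridge_iff]
  constructor
  · intro h
    rw [sum_split q v U fun A => q ^ g.k A, mul_sum]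
    have key : ∀ B ∈ U.powerset, (-1) ^ U.card * ((v + q) ^ B.card *
        ∑ A ∈ (U \ B).powerset, q ^ g.k (B ∪ A) * (-q) ^ A.card) =
        (-(v + q)) ^ B.card * (q - 1) ^ (U \ B).card * g.Zn q (U \ B) B := fun B hB => by
      rw [flow_eq q1.ne', ← card_sdiff_add_card_eq_card (mem_powerset.1 hB), pow_add,
        neg_pow (v + q), ← neg_sub 1 q, neg_pow (1 - q)]
      ring
    rw [sum_congr rfl key]
    have p1 : 0 ≤ -(v + q) := by linarith
    have p2 : 0 < q - 1 := by linarith
    refine sum_pos' (fun B _ => ?_) ?_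
    · have := (MG.Zn_pos (g := g) hq _ (U \ B) B rfl).1
      positivity
    rcases h with h | h
    · have p3 : 0 < -(v + q) := by linarith
      refine ⟨U, by simp, ?_⟩
      have := (MG.Zn_pos (g := g) hq _ (U \ U) U rfl).2 fun S _ => by simp [MG.bd]
      positivity
    · refine ⟨∅, by simp, ?_⟩
      have := (MG.Zn_pos (g := g) hq _ (U \ ∅) ∅ rfl).2 (by rwa [sdiff_empty])
      rw [card_empty, pow_zero]
      positivity
  · intro h
    push Not at h
    obtain ⟨h1, S, h2, h3⟩ := h
    have := flow_eq (g := g) q1.ne' U ∅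
    simp only [empty_union] at this
    rw [le_antisymm hv h1, this, MG.Zn_bridge q1.ne' h2 h3, mul_zero]

end

/-- A list of edges with virtual edges appended. -/
def toMG (n : ℕ) [NeZero n] (L : List (ℕ × ℕ)) : MG ℕ (Fin n) where
  src i := Fin.ofNat n (L.getD i (i - L.length).unpair).1
  tgt i := Fin.ofNat n (L.getD i (i - L.length).unpair).2
  ve x y := Nat.pair x y + L.length
  src_ve x y := by simp [List.getD_eq_getElem?_getD]
  tgt_ve x y := by simp [List.getD_eq_getElem?_getD]

theorem k_toMG {n : ℕ} [NeZero n] {L : List (ℕ × ℕ)} (hL : ∀ e ∈ L, e.1 < n ∧ e.2 < n)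
    {A : Finset ℕ} (hA : A ⊆ range L.length) : (toMG n L).k A = comps n L A := by
  unfold MG.k comps MG.gr spanning
  congr 3
  funext a b
  refine propext (exists_congr fun i => and_congr_right fun hi => ?_)
  have h1 := mem_range.1 (hA hi)
  obtain ⟨h2, h3⟩ := hL _ (List.getElem_mem h1)
  simp [toMG, List.getD_eq_getElem?_getD, h1, Fin.ext_iff, Prod.ext_iff, Nat.mod_eq_of_lt h2,
    Nat.mod_eq_of_lt h3]

theorem sign_dich {q v : ℝ} (hq : Real.exp 33488 ≤ q) (hv : v ≤ -q) {n : ℕ} {L : List (ℕ × ℕ)}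
    (hL : ∀ e ∈ L, e.1 < n ∧ e.2 < n) :
    ((v < -q ∨ ∀ i < L.length,
        comps n L ((range L.length).erase i) = comps n L (range L.length)) →
      0 < (-1) ^ L.length * dichromatic n L q v) ∧
    (¬ (v < -q ∨ ∀ i < L.length,
        comps n L ((range L.length).erase i) = comps n L (range L.length)) →
      dichromatic n L q v = 0) := by
  obtain ⟨r, m, hp⟩ := exists_par hq
  rcases Nat.eq_zero_or_pos n with rfl | hn
  · have : L = [] := List.eq_nil_iff_forall_not_mem.2 fun e he => by simpa using (hL e he).1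
    subst this
    simp [dichromatic, comps_empty]
  have : NeZero n := ⟨hn.ne'⟩
  have h := sign_sum (g := toMG n L) hp hv (range L.length)
  have e1 : ∑ A ∈ (range L.length).powerset, q ^ (toMG n L).k A * v ^ A.card =
      dichromatic n L q v := sum_congr rfl fun A hA => by rw [k_toMG hL (mem_powerset.1 hA)]
  rw [e1, card_range, k_toMG hL Subset.rfl] at h
  have e2 : ∀ (d : DecidableEq ℕ) (i : ℕ), (toMG n L).k (@erase _ d (range L.length) i) =
      comps n L (@erase _ instDecidableEqNat (range L.length) i) := fun d i => by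
    rw [k_toMG hL (@erase_subset _ d _ _), Subsingleton.elim d instDecidableEqNat]
  simpa only [e2, mem_range] using h

open Pool.Agent.Lib.helper21 in
theorem polytime_large {q v : ℝ} (hq : Real.exp 33488 ≤ q) (hv : v ≤ -q) :
    ∃ f : ℕ × List (ℕ × ℕ) → ℤ,
      Nonempty (Turing.TM2ComputableInPolyTime encGraph encInt f) ∧
      ∀ (n : ℕ) (L : List (ℕ × ℕ)), (∀ e ∈ L, e.1 < n ∧ e.2 < n) →
        f (n, L) = (SignType.sign (dichromatic n L q v) : ℤ) ∧
        ((v < -q ∨ ∀ i < L.length,
            comps n L ((range L.length).erase i) = comps n L (range L.length)) →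
          f (n, L) = (-1) ^ L.length) := by
  classical
  refine ⟨fun G => cond (decide (v < -q) || (List.range G.2.length).all fun i =>
    decide (kk G ((List.range G.2.length).filter fun j => !decide (j = i)) =
      kk G (List.range G.2.length))) ((-1) ^ G.2.length) 0, ?_, fun n L hL => ?_⟩
  · rw [encGraph_eq]
    refine PT.toTM2 (β := ℤ) ?_
    fun_prop
  have hG : Valid (n, L) := hL
  obtain ⟨h1, h2⟩ := sign_dich hq hv hL
  have key : (decide (v < -q) || (List.range L.length).all fun i =>
      decide (kk (n, L) ((List.range L.length).filter fun j => !decide (j = i)) =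
        kk (n, L) (List.range L.length))) = true ↔ (v < -q ∨ ∀ i < L.length,
        comps n L ((range L.length).erase i) = comps n L (range L.length)) := by
    simp only [Bool.or_eq_true, decide_eq_true_eq, List.all_eq_true, List.mem_range]
    refine or_congr_right (forall₂_congr fun i _ => ?_)
    rw [kk_eq hG fun j hj => List.mem_range.1 (List.mem_filter.1 hj).1,
      kk_eq hG fun j hj => List.mem_range.1 hj, List.toFinset_range]
    have : ((List.range L.length).filter fun j => !decide (j = i)).toFinset =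
        (range L.length).erase i := by
      ext x; simp [and_comm]
    rw [this]
  dsimp only
  by_cases h : v < -q ∨ ∀ i < L.length,
    comps n L ((range L.length).erase i) = comps n L (range L.length)
  · rw [key.2 h]
    refine ⟨?_, fun _ => rfl⟩
    have h3 := h1 h
    rcases Nat.even_or_odd L.length with hm | hm
    · rw [hm.neg_one_pow] at h3 ⊢
      rw [sign_pos (by linarith)]; rfl
    · rw [hm.neg_one_pow] at h3 ⊢
      rw [sign_neg (by linarith)]; rfl
  · rw [Bool.eq_false_iff.2 fun hh => h (key.1 hh), h2 h]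
    exact ⟨by simp, fun hh => absurd hh h⟩

end Pool.Agent.P.MP_e0c037_lc.FL
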