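import Pool.Agent.P.MP_e0c037_lc.FL.Count

/-! The counting bound for a well-connected region. -/

set_option linter.unusedSectionVars false

namespace Pool.Agent.P.MP_e0c037_lc.FL

open Finset
open scoped Classical

namespace MG

variable {α V : Type} [Fintype V] (g : MG α V)

/-- A well-connected region `Y` with inner edges `W`. -/
structure Sel (Λ0 Λ W : Finset α) (J Y : Finset V) : Prop where
  sub : Λ0 ⊆ Λ
  cl : g.Closed Λ Y
  ins : ∀ e ∈ W, g.src e ∈ Y ∧ g.tgt e ∈ Y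
  conn : ∀ S ⊆ Y, g.Closed Λ S → S.Nonempty → (Y \ S).Nonempty → 1 ≤ g.bd W S
  mkd : ∀ S ⊆ Y, g.Closed Λ S → 1 ≤ g.jc Λ J S → g.jc Λ J S ≤ g.jc Λ J (Y \ S) →
    psi (g.jc Λ J S) ≤ 9 * g.bd W S
  unm : ∀ S ⊆ Y, g.Closed Λ S → S.Nonempty → g.jc Λ J S = 0 →
    g.jc Λ0 univ S ≤ g.jc Λ0 univ (Y \ S) → psi (g.jc Λ0 univ S) ≤ 9 * g.bd W S

/-- The height of a block. -/
noncomputable def ht (Λ0 Λ : Finset α) (J : Finset V) (a b : V) (S : Finset V) : ℝ :=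
  if a ∈ S ∨ b ∈ S then 0 else
    if g.jc Λ J S = 0 then 82 + 78 / phi (g.jc Λ0 univ S) else 2 + 78 / phi (g.jc Λ J S)

variable {g} {T Λ0 Λ W : Finset α} {J S S' Y : Finset V} {a b x y : V}

theorem Sel.insert (h : g.Sel Λ0 Λ W J Y) (hx : x ∈ Y) (hy : y ∈ Y) :
    g.Sel Λ0 Λ (insert (g.ve x y) W) J Y := by
  have m : ∀ S, (g.bd W S : ℝ) ≤ g.bd (Insert.insert (g.ve x y) W) S := fun S =>
    Nat.cast_le.2 (bd_mono (subset_insert _ _))
  refine ⟨h.sub, h.cl, fun e he => ?_, fun S h1 h2 h3 h4 =>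
    (h.conn S h1 h2 h3 h4).trans (bd_mono (subset_insert _ _)), fun S h1 h2 h3 h4 => ?_,
    fun S h1 h2 h3 h4 h5 => ?_⟩
  · rcases mem_insert.1 he with rfl | he
    · rw [g.src_ve, g.tgt_ve]; exact ⟨hx, hy⟩
    · exact h.ins e he
  · linarith [h.mkd S h1 h2 h3 h4, m S]
  · linarith [h.unm S h1 h2 h3 h4 h5, m S]

theorem sz_pos (h : S.Nonempty) : 1 ≤ g.jc Λ univ S := jc_pos.2 ⟨_, h.choose_spec, mem_univ _⟩

theorem div_phi_le {m n : ℕ} (h1 : 1 ≤ m) (h : m ≤ n) : 78 / phi n ≤ 78 / phi m :=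
  div_le_div_of_nonneg_left (by norm_num) (by linarith [one_le_phi h1]) (phi_mono h)

theorem div_phi_le' {n : ℕ} (h : 1 ≤ n) : 78 / phi n ≤ 78 :=
  div_le_self (by norm_num) (one_le_phi h)

theorem div_phi_nonneg (n : ℕ) : 0 ≤ 78 / phi n := div_nonneg (by norm_num) (phi_nonneg n)

theorem ht_nonneg (S : Finset V) : 0 ≤ g.ht Λ0 Λ J a b S := by
  have := div_phi_nonneg (g.jc Λ0 univ S)
  have := div_phi_nonneg (g.jc Λ J S)
  unfold ht
  split_ifs <;> linarith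

theorem ht_le (h : S.Nonempty) : g.ht Λ0 Λ J a b S ≤ 160 := by
  unfold ht
  split_ifs with h1 h2
  · norm_num
  · linarith [div_phi_le' (sz_pos (g := g) (Λ := Λ0) h)]
  · linarith [div_phi_le' (Nat.pos_of_ne_zero h2)]

theorem ht_anti (S S' : Finset V) (h : S.Nonempty) (hS : S ⊆ S') :
    g.ht Λ0 Λ J a b S' ≤ g.ht Λ0 Λ J a b S := by
  by_cases h1 : a ∈ S' ∨ b ∈ S'
  · rw [ht, if_pos h1]; exact ht_nonneg S
  have h2 : ¬ (a ∈ S ∨ b ∈ S) := fun hh => h1 (hh.imp (@hS a) (@hS b))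
  have h3 := jc_mono (g := g) (Λ := Λ) (J := J) hS
  rw [ht, ht, if_neg h1, if_neg h2]
  split_ifs with h4 h5 h5
  · linarith [div_phi_le (sz_pos h) (jc_mono (g := g) (Λ := Λ0) (J := univ) hS)]
  · omega
  · linarith [div_phi_le' (Nat.pos_of_ne_zero h4), div_phi_nonneg (g.jc Λ0 univ S)]
  · linarith [div_phi_le (Nat.pos_of_ne_zero h5) h3]

theorem disj_blk (h : ¬ g.Reach T x y) : Disjoint (g.blk T x) (g.blk T y) :=
  disjoint_left.2 fun _ h1 h2 => h ((mem_blk.1 h1).trans (mem_blk.1 h2).symm)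

theorem Sel.count (h : g.Sel Λ0 Λ W J Y) (a b : V) :
    ∑ A ∈ univ.filter fun A => g.Val Λ W Y a b A ∧ g.Closed Λ A,
      Real.exp (-320) ^ g.bd W A ≤ 1 := by
  refine le_trans (sum_le_sum fun A _ => ?_) (boruvka (H := g.ht Λ0 Λ J a b) (a := a) (b := b)
    ht_nonneg ht_anti h.ins ?_ _ Λ rfl Subset.rfl h.cl)
  · rw [← Real.exp_nat_mul, Real.exp_le_exp, mul_neg, neg_le_neg_iff, ← nsmul_eq_mul]
    refine sum_le_card_nsmul _ _ _ fun e _ => ?_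
    linarith [ht_le (g := g) (Λ0 := Λ0) (Λ := Λ) (J := J) (a := a) (b := b)
      ⟨_, self_mem_blk (g := g) (T := Λ) (a := g.src e)⟩, ht_le (g := g) (Λ0 := Λ0) (Λ := Λ) (J := J)
      (a := a) (b := b) ⟨_, self_mem_blk (g := g) (T := Λ) (a := g.tgt e)⟩]
  intro T hT hY v0 hv0 ha0 hb0
  have cl : ∀ v, g.Closed Λ (g.blk T v) := fun v => closed_blk.mono hT
  have ne : ∀ v, (g.blk T v).Nonempty := fun v => ⟨v, self_mem_blk⟩
  have sb : ∀ v, ∀ u ∈ Y, ¬ g.Reach T v u → g.blk T u ⊆ Y \ g.blk T v := fun v u hu hh =>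
    subset_sdiff.2 ⟨hY.blk_subset hu, (disj_blk hh).symm⟩
  have one : ∀ v ∈ Y, ∀ u ∈ Y, ¬ g.Reach T v u → (1 : ℝ) ^ 2 ≤ g.bd W (g.blk T v) :=
    fun v hv u hu hh => by
      exact_mod_cast h.conn _ (hY.blk_subset hv) (cl v) (ne v) ((ne u).mono (sb v u hu hh))
  have sq : ∀ n, (phi n / 3) ^ 2 = psi n / 9 := fun n => by rw [div_pow, phi_sq]; norm_num
  by_cases hc : ∃ v ∈ Y, ¬ g.Reach T v a ∧ ¬ g.Reach T v b ∧ g.jc Λ J (g.blk T v) = 0
  · obtain ⟨v, hv, hm⟩ := exists_min_image (Y.filter fun v => ¬ g.Reach T v a ∧ ¬ g.Reach T v b ∧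
      g.jc Λ J (g.blk T v) = 0) (fun v => g.jc Λ0 univ (g.blk T v)) (by
        obtain ⟨v, hv⟩ := hc; exact ⟨v, mem_filter.2 hv⟩)
    obtain ⟨hv, ha, hb, h0⟩ := mem_filter.1 hv
    refine ⟨v, hv, ha, hb, fun u hu hvu => ?_⟩
    rw [ht, ht, if_neg (c := a ∈ g.blk T v ∨ _) (by simp [ha, hb]), if_pos h0]
    have := div_phi_nonneg (g.jc Λ0 univ (g.blk T v))
    split_ifs with h1 h2
    · exact ⟨1, one_pos, one v hv u hu hvu, by linarith⟩
    · have h3 := hm u (mem_filter.2 ⟨hu, fun hh => h1 (by simp [hh]), fun hh => h1 (by simp [hh]),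
        Nat.eq_zero_of_le_zero (h2 ▸ jc_mono subset_union_right)⟩)
      have h4 := sz_pos (g := g) (Λ := Λ0) (ne v)
      refine ⟨phi (g.jc Λ0 univ (g.blk T v)) / 3, by linarith [one_le_phi h4], ?_, ?_⟩
      · rw [sq]
        linarith [h.unm _ (hY.blk_subset hv) (cl v) (ne v) h0 (h3.trans (jc_mono (sb v u hu hvu)))]
      · rw [jc_union ((cl v).mono h.sub) (disj_blk hvu)]
        linarith [phi_drop (t := g.jc Λ0 univ (g.blk T v) + g.jc Λ0 univ (g.blk T u)) h4 (by omega)]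
    · exact ⟨1, one_pos, one v hv u hu hvu, by linarith [div_phi_le' (Nat.pos_of_ne_zero h2)]⟩
  · push Not at hc
    obtain ⟨v, hv, hm⟩ := exists_min_image (Y.filter fun v => ¬ g.Reach T v a ∧ ¬ g.Reach T v b)
      (fun v => g.jc Λ J (g.blk T v)) ⟨v0, mem_filter.2 ⟨hv0, ha0, hb0⟩⟩
    obtain ⟨hv, ha, hb⟩ := mem_filter.1 hv
    have h0 := hc v hv ha hb
    refine ⟨v, hv, ha, hb, fun u hu hvu => ?_⟩
    rw [ht, ht, if_neg (c := a ∈ g.blk T v ∨ _) (by simp [ha, hb]), if_neg h0,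
      jc_union (cl v) (disj_blk hvu), if_neg (c := _ + _ = 0) (by omega)]
    have := div_phi_nonneg (g.jc Λ J (g.blk T v))
    split_ifs with h1
    · exact ⟨1, one_pos, one v hv u hu hvu, by linarith⟩
    · have h3 := hm u (mem_filter.2 ⟨hu, fun hh => h1 (by simp [hh]), fun hh => h1 (by simp [hh])⟩)
      have h4 := Nat.pos_of_ne_zero h0
      refine ⟨phi (g.jc Λ J (g.blk T v)) / 3, by linarith [one_le_phi h4], ?_, ?_⟩
      · rw [sq]
        linarith [h.mkd _ (hY.blk_subset hv) (cl v) h4 (h3.trans (jc_mono (sb v u hu hvu)))]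
      · linarith [phi_drop (t := g.jc Λ J (g.blk T v) + g.jc Λ J (g.blk T u)) h4 (by omega)]

end MG

end Pool.Agent.P.MP_e0c037_lc.FL
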