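import Pool.Agent.P.MP_e0c037_lc.FL.Zn

/-! The joint induction and the positivity of the flow polynomial for large `q`. -/

set_option linter.unusedSectionVars false

namespace Pool.Agent.P.MP_e0c037_lc.FL

open Finset
open scoped Classical

/-- The numerical parameters. -/
structure Par (q r m : ℝ) : Prop where
  pow : r ^ 13 = q
  two : 2 < r
  m0 : 0 ≤ m
  m1 : 4 * m ≤ Real.exp (-320)
  big : 32 * r ^ 12 ≤ m ^ 8 * (q - 1)

theorem Par.one_lt {q r m : ℝ} (h : Par q r m) : 1 < q :=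
  h.pow ▸ one_lt_pow₀ (by linarith [h.two]) (by norm_num)

namespace MG

variable {α V : Type} [Fintype V] (g : MG α V)

/-- The upper comparison. -/
def CB (q r : ℝ) (U0 Λ0 : Finset α) (P : Finset V) (o : V) (N : ℕ) : Prop :=
  ∀ U Λ J d n, U.card + g.k Λ < N → g.St U0 Λ0 P o U Λ J → g.k Λ ≤ g.k (Λ ∪ g.st o J) + d →
    g.NB U0 Λ0 P U Λ n → g.Zn q U Λ ≤ 2 ^ d * r ^ n * g.Zn q U (Λ ∪ g.st o J)

/-- The lower comparison. -/
def CA (q : ℝ) (U0 Λ0 : Finset α) (P : Finset V) (o : V) (N : ℕ) : Prop :=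
  ∀ U Λ, U.card + g.k Λ < N → g.St U0 Λ0 P o U Λ {o} → ∀ j ∈ P,
    g.Zn q U (insert (g.ve o j) Λ) ≤ 2 * g.Zn q U Λ

variable {g} {q r m : ℝ} {Λ Λ0 U U0 : Finset α} {J P S : Finset V} {o x y : V} {N d n : ℕ}

theorem CA.iter (h : g.CA q U0 Λ0 P o N) (hP : g.Piece U0 Λ0 P) (hN : U.card + g.k Λ < N)
    (hs : g.St U0 Λ0 P o U Λ {o}) (J : Finset V) (hJ : J ⊆ P) :
    g.Zn q U (Λ ∪ g.st o J) ≤ 2 ^ J.card * g.Zn q U Λ := by
  induction J using Finset.induction_on with
  | empty => simp [st]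
  | insert j J hj ih =>
    have h1 := (subset_insert _ _).trans hJ
    have h2 := h U _ (by have := g.isK.union_le Λ (g.st o J); omega) (hs.star hP h1) j
      (hJ (mem_insert_self _ _))
    rw [st, image_insert, union_insert, card_insert_of_notMem hj, pow_succ]
    have := ih h1
    unfold st at *
    linarith

theorem diff_le (hq : Par q r m) (hP : g.Piece U0 Λ0 P)
    (pos : ∀ U Λ, U.card < U0.card → 0 ≤ g.Zn q U Λ) (hB : g.CB q r U0 Λ0 P o N)
    (hA : g.CA q U0 Λ0 P o N) (hN : U.card + g.k Λ ≤ N) (hs : g.St U0 Λ0 P o U Λ J)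
    (hd : g.k Λ ≤ g.k (Λ ∪ g.st o J) + d) (hn : g.NB U0 Λ0 P U Λ n) (h2 : 2 ≤ g.jc Λ J P)
    (h1 : ∀ S ⊆ P, g.Closed Λ S → 1 ≤ g.jc Λ J S → 1 ≤ g.jc Λ J (P \ S) →
      1 ≤ g.bd (g.ins U P) S) :
    ∃ x ∈ J, ∃ y ∈ J, ¬ g.Reach Λ x y ∧ |g.Zn q U Λ - g.Zn q U (insert (g.ve x y) Λ)| ≤
      2 ^ d * r ^ n * g.Zn q U (Λ ∪ g.st o J) / 4 := by
  obtain ⟨Y, W, hW, j2, sel⟩ := hs.sel hP h2 h1
  obtain ⟨x, hx, y, hy, hx', hy', hxy⟩ := jc_two j2
  refine ⟨x, hx', y, hy', hxy, ?_⟩
  have q1 := hq.one_lt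
  have r0 : 0 < r := by linarith [hq.two]
  have z0 := pos U (Λ ∪ g.st o J) hs.card
  have k1 : g.k (insert (g.ve x y) Λ) + 1 = g.k Λ := k_insert.2 (by rwa [g.src_ve, g.tgt_ve])
  have k2 := (sub_ve_st (g := g) (Λ := Λ) (o := o) hx' hy').k_le
  set Z := 2 ^ d * r ^ n * g.Zn q U (Λ ∪ g.st o J) with hZ
  have Z0 : 0 ≤ Z := by positivity
  rw [Zn_expand (hW.trans (filter_subset _ _)),
    ← sum_filter_of_ne (p := g.Piv Λ W x y) fun K _ h =>
      piv_of_mob (left_ne_zero_of_mul (left_ne_zero_of_mul h))]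
  refine (abs_sum_le_sum_abs _ _).trans ((sum_le_sum (g := fun K => (m ^ 8) ^ K.card * Z)
    fun K hK => ?_).trans ?_)
  · rw [mem_filter, mem_powerset] at hK
    have hK1 := sel.piv_ne hx hy hK.2
    have hK2 := hK.1.trans hW
    have c1 : (U \ K).card + K.card = U.card :=
      card_sdiff_add_card_eq_card (hK2.trans (filter_subset _ _))
    have c2 := hs.card
    have e1 : Λ ∪ g.st o (J ∪ g.ends K) = (Λ ∪ g.st o J) ∪ g.st o (g.ends K) := by
      rw [st, image_union, union_assoc]; rfl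
    have c3 : g.k Λ ≤ g.k (Λ ∪ g.st o (J ∪ g.ends K)) + (d + 2 * K.card) := by
      have := k_le_union (g := g) (Λ ∪ g.st o J) (g.st o (g.ends K))
      have := card_ends (g := g) (K := K)
      have : (g.st o (g.ends K)).card ≤ (g.ends K).card := card_image_le
      rw [e1]; omega
    have b1 := hB (U \ K) Λ _ _ _ (by omega) (hs.drop hK2) c3 (hn.drop K)
    have s1 := sub_ve_st' (g := g) (Λ := Λ) (o := o) (mem_union_left (g.ends K) hx')
      (mem_union_left (g.ends K) hy')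
    have b2 := hB (U \ K) (insert (g.ve x y) Λ) _ (d + 2 * K.card) _ (by omega)
      ((hs.ve hP (hs.mks hx') (hs.mks hy')).drop hK2)
      (by rw [k_congr s1 sub_st_ins]; omega) ((hn.grow (subset_insert _ _)).drop K)
    rw [Zn_congr s1 sub_st_ins] at b2
    rw [Zn_loops fun e he => (reach_st (mem_union_right _ (mem_ends he).1)).symm.trans
      (reach_st (mem_union_right _ (mem_ends he).2)), e1] at b1 b2
    have b3 := (hA.iter hP (by omega) (hs.good hP) _ (ends_subset hK2)).trans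
      (mul_le_mul_of_nonneg_right (pow_le_pow_right₀ one_le_two card_ends) z0)
    have b4 := mul_le_mul_of_nonneg_left b3
      (by positivity : (0 : ℝ) ≤ 2 ^ (d + 2 * K.card) * r ^ (n + 12 * K.card))
    have p1 := pos (U \ K) Λ (by omega)
    have p2 := pos (U \ K) (insert (g.ve x y) Λ) (by omega)
    have b5 : |g.Zn q (U \ K) Λ - g.Zn q (U \ K) (insert (g.ve x y) Λ)| ≤
        (16 * r ^ 12) ^ K.card * Z := by
      have : 2 ^ (d + 2 * K.card) * r ^ (n + 12 * K.card) *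
          (2 ^ (2 * K.card) * g.Zn q U (Λ ∪ g.st o J)) = (16 * r ^ 12) ^ K.card * Z := by
        rw [hZ, show (16 : ℝ) = 2 ^ 2 * 2 ^ 2 by norm_num]
        simp only [pow_add, pow_mul, mul_pow]
        ring
      rw [abs_sub_le_iff]
      constructor <;> linarith
    have b6 := abs_mob (h := g.sepf Λ W x y) (K := K) fun A => by
      unfold sepf; split_ifs <;> simp
    have b7 : |(1 - q)⁻¹| = (q - 1)⁻¹ := by rw [abs_inv, abs_sub_comm, abs_of_pos (by linarith)]
    have q2 : 0 < q - 1 := by linarith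
    rw [abs_mul, abs_mul, abs_pow, b7]
    refine (mul_le_mul (mul_le_mul_of_nonneg_right b6 (by positivity)) b5 (abs_nonneg _)
      (by positivity)).trans ?_
    rw [← mul_assoc, ← mul_pow, ← mul_pow]
    refine mul_le_mul_of_nonneg_right (pow_le_pow_left₀ (by positivity) ?_ _) Z0
    rw [mul_right_comm, ← div_eq_mul_inv, div_le_iff₀ q2]
    linarith [hq.big]
  · rw [← sum_mul]
    have b1 := sel.ksum hx hy hq.m0 hq.m1
    have b2 : m ≤ 1 / 4 := by
      linarith [hq.m1, Real.exp_le_one_iff.2 (by norm_num : (-320 : ℝ) ≤ 0)]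
    have b3 := pow_le_pow_left₀ hq.m0 b2 4
    nlinarith

theorem St.cut (hs : g.St U0 Λ0 P o U Λ J) (hP : g.Piece U0 Λ0 P) (hn : g.NB U0 Λ0 P U Λ n)
    (hc : g.Closed Λ S) (h0 : g.bd (g.ins U P) S = 0) (hx : x ∈ S)
    (hx' : x ∈ P) (hy : y ∈ P) (hy' : y ∉ S) :
    ∃ n', n = n' + 13 ∧ g.NB U0 Λ0 P U (insert (g.ve x y) Λ) n' := by
  have cr : g.Cross S (g.ve x y) := by simp [cross_ve, hx, hy']
  have key : ∀ C ⊆ g.ins U P, g.k (insert (g.ve x y) Λ ∪ C) + 1 = g.k (Λ ∪ C) := fun C hC => by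
    rw [insert_union]
    exact k_cross (hc.union ((bd_eq_zero.1 h0).mono hC)) cr
  have h1 := hn _ Subset.rfl
  have h2 := key _ Subset.rfl
  have h3 := ((hs.ve hP hx' hy).hi.union
    (sub_of_subset (hs.ins.trans subset_union_right))).k_le
  rw [sdiff_self, bot_eq_empty, card_empty] at h1
  refine ⟨n - 13, by omega, fun C hC => ?_⟩
  have := hn C hC
  have := key C hC
  omega

theorem joint (hq : Par q r m) (hP : g.Piece U0 Λ0 P)
    (pos : ∀ U Λ, U.card < U0.card → 0 ≤ g.Zn q U Λ) (N : ℕ) :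
    g.CB q r U0 Λ0 P o N ∧ g.CA q U0 Λ0 P o N := by
  induction N with
  | zero => exact ⟨fun _ _ _ _ _ h => absurd h (by omega), fun _ _ h => absurd h (by omega)⟩
  | succ N ih =>
  obtain ⟨hB, hA⟩ := ih
  have q1 := hq.one_lt
  have r1 : 1 ≤ r := by linarith [hq.two]
  constructor
  · intro U Λ J d n hN hs hd hn
    have z0 := pos U (Λ ∪ g.st o J) hs.card
    by_cases h0 : ∀ j ∈ J, g.Reach Λ o j
    · rw [← Zn_congr (sub_of_subset subset_union_left)
        ((sub_of_subset Subset.rfl).union (sub_st h0))] at z0 ⊢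
      exact le_mul_of_one_le_left z0
        (one_le_mul_of_one_le_of_one_le (one_le_pow₀ one_le_two) (one_le_pow₀ r1))
    push Not at h0
    obtain ⟨j, hj, h0⟩ := h0
    by_cases h1 : ∀ S ⊆ P, g.Closed Λ S → 1 ≤ g.jc Λ J S → 1 ≤ g.jc Λ J (P \ S) →
      1 ≤ g.bd (g.ins U P) S
    · obtain ⟨x, hx, y, hy, hxy, h3⟩ := diff_le hq hP pos hB hA (by omega) hs hd hn
        (two_le_jc (hs.mks hs.base) (hs.mks hj) hs.base hj h0) h1
      have k1 : g.k (insert (g.ve x y) Λ) + 1 = g.k Λ := k_insert.2 (by rwa [g.src_ve, g.tgt_ve])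
      have s1 := sub_ve_st' (g := g) (Λ := Λ) (o := o) hx hy
      have k2 := (sub_ve_st (g := g) (Λ := Λ) (o := o) hx hy).k_le
      obtain ⟨d, rfl⟩ : ∃ d', d = d' + 1 := ⟨d - 1, by omega⟩
      have b1 := hB U _ J d n (by omega) (hs.ve hP (hs.mks hx) (hs.mks hy))
        (by rw [k_congr s1 sub_st_ins]; omega) (hn.grow (subset_insert _ _))
      rw [Zn_congr s1 sub_st_ins] at b1
      have b2 := (abs_le.1 h3).2
      have b3 : 0 ≤ 2 ^ d * r ^ n * g.Zn q U (Λ ∪ g.st o J) := by positivity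
      rw [pow_succ] at b2 ⊢
      linarith
    · push Not at h1
      obtain ⟨S, hS, hc, a1, a2, a3⟩ := h1
      obtain ⟨x, hx, hx'⟩ := jc_pos.1 a1
      obtain ⟨y, hy, hy'⟩ := jc_pos.1 a2
      rw [Nat.lt_one_iff] at a3
      rw [mem_sdiff] at hy
      obtain ⟨n, rfl, hn'⟩ := hs.cut hP hn hc a3 hx (hS hx) hy.1 hy.2
      have cr : g.Cross S (g.ve x y) := by simp [cross_ve, hx, hy.2]
      have k1 := k_cross hc cr
      have s1 := sub_ve_st' (g := g) (Λ := Λ) (o := o) hx' hy'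
      have b1 := hB U _ J d n (by omega) (hs.ve hP (hS hx) hy.1)
        (by rw [k_congr s1 sub_st_ins]; omega) hn'
      rw [Zn_congr s1 sub_st_ins] at b1
      have c1 : g.ve x y ∉ U := fun hh => bd_eq_zero.1 a3 _
        (mem_filter.2 ⟨hh, by rw [g.src_ve, g.tgt_ve]; exact ⟨hS hx, hy.1⟩⟩) cr
      have c2 : g.bd (g.ins U0 P) S ≤ (U0 \ U).card := card_le_card fun e he => by
        obtain ⟨h1, h2⟩ := mem_filter.1 he
        rw [MG.ins, mem_filter] at h1
        exact mem_sdiff.2 ⟨h1.1, fun hh => bd_eq_zero.1 a3 e (mem_filter.2 ⟨hh, h1.2⟩) h2⟩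
      have c3 := hP.cut S hS (hc.mono hs.lo) ⟨x, hx⟩ ⟨y, mem_sdiff.2 hy⟩
      have c4 := card_sdiff_add_card_eq_card hs.lt.1
      have c5 := pos (insert (g.ve x y) U) Λ (by rw [card_insert_of_notMem c1]; omega)
      rw [Zn_insert c1] at c5
      have c6 := mul_nonneg (by linarith : 0 ≤ q - 1) c5
      have : 1 - q ≠ 0 := by linarith
      have c7 : (q - 1) * ((1 - (1 - q)⁻¹) * g.Zn q U (insert (g.ve x y) Λ) +
          (1 - q)⁻¹ * g.Zn q U Λ) = q * g.Zn q U (insert (g.ve x y) Λ) - g.Zn q U Λ := by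
        field_simp; ring
      rw [pow_add, hq.pow]
      nlinarith
  · intro U Λ hN hs j hj
    have z0 := pos U Λ hs.card
    by_cases h0 : g.Reach Λ o j
    · rw [Zn_ins (by rwa [g.src_ve, g.tgt_ve])]; linarith
    have ho := hs.mks hs.base
    have hs' := hs.mark (J' := {o, j}) (by simp) (insert_subset ho (by simpa))
    have s1 : g.Sub (Λ ∪ g.st o {o, j}) (insert (g.ve o j) Λ) :=
      (sub_of_subset (subset_insert _ _)).union (sub_st fun x hx => by
        rcases mem_insert.1 hx with rfl | hx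
        · exact Reach.rfl
        · rw [mem_singleton.1 hx]; exact reach_ve (mem_insert_self _ _))
    have s2 := sub_ve_st (g := g) (Λ := Λ) (o := o) (J := {o, j}) (x := o) (y := j) (by simp) (by simp)
    obtain ⟨x, hx, y, hy, hxy, h3⟩ := diff_le (d := 1) hq hP pos hB hA (by omega) hs'
      (by rw [k_congr s1 s2]; exact g.isK.ge _ _) (hs.nb hP)
      (two_le_jc ho hj (by simp) (by simp) h0) fun S hS hc a1 a2 => by
        obtain ⟨x, hx, -⟩ := jc_pos.1 a1
        obtain ⟨y, hy, -⟩ := jc_pos.1 a2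
        by_contra a3
        obtain ⟨n, h, -⟩ := hs.cut hP (hs.nb hP) hc (by omega) hx (hS hx) (mem_sdiff.1 hy).1
          (mem_sdiff.1 hy).2
        omega
    have s3 : g.Sub (insert (g.ve o j) Λ) (insert (g.ve x y) Λ) :=
      (sub_of_subset (subset_insert _ _)).insert (by
        rw [g.src_ve, g.tgt_ve]
        have := reach_ve (g := g) (mem_insert_self (g.ve x y) Λ)
        simp only [mem_insert, mem_singleton] at hx hy
        rcases hx with rfl | rfl <;> rcases hy with rfl | rfl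
        · exact absurd Reach.rfl hxy
        · exact this
        · exact this.symm
        · exact absurd Reach.rfl hxy)
    rw [Zn_congr s1 s2, Zn_congr ((sub_ve_st hx hy).trans s1) s3] at h3
    have := (abs_le.1 h3).1
    norm_num at this
    linarith

theorem Zn_pos (hq : Par q r m) (n : ℕ) : ∀ U Λ : Finset α, U.card = n →
    0 ≤ g.Zn q U Λ ∧ ((∀ S, g.Closed Λ S → g.bd U S ≠ 1) → 0 < g.Zn q U Λ) := by
  induction n using Nat.strong_induction_on with
  | _ n ih =>
  intro U Λ hn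
  have q1 := hq.one_lt
  by_cases hb : ∀ S, g.Closed Λ S → g.bd U S ≠ 1
  swap
  · refine ⟨?_, fun h => absurd h hb⟩
    push Not at hb
    obtain ⟨S, h1, h2⟩ := hb
    exact (Zn_bridge q1.ne' h1 h2).ge
  suffices 0 < g.Zn q U Λ from ⟨this.le, fun _ => this⟩
  have d1 : (1 - q)⁻¹ < 0 := inv_lt_zero.2 (by linarith)
  have con : ∀ e ∈ U, 0 < g.Zn q (U.erase e) (insert e Λ) := fun e he =>
    (ih _ (hn ▸ card_erase_lt_of_mem he) _ _ rfl).2 fun S hc h1 => by
      refine hb S (hc.mono (subset_insert _ _)) ?_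
      rw [← h1, bd, bd, filter_erase, erase_eq_of_notMem]
      exact fun hh => hc e (mem_insert_self _ _) (mem_filter.1 hh).2
  rcases U.eq_empty_or_nonempty with rfl | ⟨e, he⟩
  · rw [Zn, Ex_empty]; positivity
  by_cases hr : g.Reach Λ (g.src e) (g.tgt e)
  · have := con e he
    rw [Zn_erase he, ← Zn_ins (U := U.erase e) hr]
    linarith
  by_cases h3 : ∀ S, g.Closed Λ S → g.bd U S = 0 ∨ 3 ≤ g.bd U S
  swap
  · push Not at h3
    obtain ⟨S, hc, a1, a2⟩ := h3
    have := hb S hc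
    obtain ⟨f, hf, a3⟩ := (bd_pos (g := g) (W := U) (S := S)).1 (by omega)
    rw [Zn_erase hf, Zn_bridge (U := U.erase f) q1.ne' hc (by
      rw [bd, filter_erase, card_erase_of_mem (mem_filter.2 ⟨hf, a3⟩)]
      unfold bd at *; omega)]
    have := con f hf
    nlinarith
  obtain ⟨P, hP⟩ := exists_piece h3 he hr
  obtain ⟨x, hx, y, hy, -, -, hxy⟩ := jc_two hP.two
  obtain ⟨f, hf, -⟩ := (bd_pos (g := g) (W := g.ins U P) (S := g.blk Λ x)).1 (by
    have := hP.cut _ (hP.cl.blk_subset hx) closed_blk ⟨x, self_mem_blk⟩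
      ⟨y, mem_sdiff.2 ⟨hy, fun hh => hxy (mem_blk.1 hh)⟩⟩
    omega)
  have hf' := mem_filter.1 hf
  have s1 : g.Sub (Λ ∪ g.st (g.src f) {g.src f, g.tgt f}) (insert f Λ) :=
    (sub_of_subset (subset_insert _ _)).union (sub_st fun x hx => by
      rcases mem_insert.1 hx with rfl | hx
      · exact Reach.rfl
      · rw [mem_singleton.1 hx]; exact reach_edge (mem_insert_self _ _))
  have s2 : g.Sub (insert f Λ) (Λ ∪ g.st (g.src f) {g.src f, g.tgt f}) :=
    (sub_of_subset subset_union_left).insert (reach_st (by simp))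
  have b1 := (joint (o := g.src f) hq hP (fun U' Λ' h => (ih _ (hn ▸ h) U' Λ' rfl).1) _).1
    (U.erase f) Λ {g.src f, g.tgt f} 1 12 (Nat.lt_succ_self _)
    ⟨erase_ssubset hf'.1, Subset.rfl, sub_of_subset subset_union_left,
      insert_subset hf'.2.1 (by simpa using hf'.2.2), by simp, fun e he he' => by
        have : e = f := by
          by_contra hh
          exact he' (mem_erase.2 ⟨hh, (mem_filter.1 he).1⟩)
        simp [this]⟩
    (by rw [k_congr s1 s2]; exact g.isK.ge _ _) fun C hC => by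
      have := hP.ratio C (hC.trans (filter_subset_filter _ (erase_subset _ _)))
      have h2 : (g.ins U P \ C).card ≤ (insert f (g.ins (U.erase f) P \ C)).card :=
        card_le_card fun e he => by
          simp only [ins, mem_sdiff, mem_filter, mem_insert, mem_erase] at he ⊢
          grind
      have := card_insert_le f (g.ins (U.erase f) P \ C)
      omega
  rw [Zn_congr s1 s2] at b1
  have b2 := con f hf'.1
  have b3 : 2 ^ 1 * r ^ 12 < q := by
    rw [← hq.pow, pow_succ' r 12, pow_one]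
    exact mul_lt_mul_of_pos_right hq.two (pow_pos (by linarith [hq.two]) _)
  have : 1 - q ≠ 0 := by linarith
  have b4 : (q - 1) * g.Zn q U Λ =
      q * g.Zn q (U.erase f) (insert f Λ) - g.Zn q (U.erase f) Λ := by
    rw [Zn_erase hf'.1]; field_simp; ring
  refine (mul_pos_iff_of_pos_left (by linarith : 0 < q - 1)).1 ?_
  nlinarith

end MG

end Pool.Agent.P.MP_e0c037_lc.FL
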