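import Pool.Agent.P.MP_e0c037_lc.FL.Height
import Pool.Agent.P.MP_e0c037_lc.FL.Ex

/-! The edge sets with a nonzero Moebius coefficient have small total weight. -/

set_option linter.unusedSectionVars false

namespace Pool.Agent.P.MP_e0c037_lc.FL

open Finset
open scoped Classical

namespace MG

variable {α V : Type} [Fintype V] (g : MG α V)

/-- Indicator that deleting `D` separates `x` from `y`. -/
noncomputable def sepf (Λ W : Finset α) (x y : V) (D : Finset α) : ℝ :=
  if g.Reach (Λ ∪ W \ D) x y then 0 else 1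

/-- Every edge of `K` is pivotal. -/
def Piv (Λ W : Finset α) (x y : V) (K : Finset α) : Prop :=
  ¬ g.Reach (Λ ∪ W \ K) x y ∧ ∀ e ∈ K, ∃ A ⊆ K.erase e,
    g.Reach (Λ ∪ W \ A) x y ∧ ¬ g.Reach (Λ ∪ W \ insert e A) x y

/-- `C` is attached at the anchor `c`. -/
def Att (Λ W : Finset α) (Y C : Finset V) (c : V × V) : Prop :=
  (g.Val Λ W Y c.2 c.1 C ∧ g.Closed Λ C) ∧ 1 ≤ g.bd W C

variable {g} {T Λ0 Λ W K : Finset α} {J S Y Z : Finset V} {x y u v : V} {e : α}

theorem del_mono {A B : Finset α} (h : A ⊆ B) : Λ ∪ W \ B ⊆ Λ ∪ W \ A :=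
  union_subset_union Subset.rfl (sdiff_subset_sdiff Subset.rfl h)

theorem piv_of_mob (h : mob (g.sepf Λ W x y) K ≠ 0) : g.Piv Λ W x y K := by
  refine ⟨fun hr => ?_, fun e he => ?_⟩
  · obtain ⟨A, hA, h1⟩ := mob_ne h
    exact h1 (if_pos (hr.mono (del_mono hA)))
  · obtain ⟨A, hA, h1⟩ := mob_pivot h he
    refine ⟨A, hA, ?_⟩
    have := @Reach.mono _ _ _ g _ _ x y
      (h := del_mono (Λ := Λ) (W := W) (subset_insert e A))
    unfold sepf at h1
    split_ifs at h1 <;> grind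

theorem Piv.sep (h : g.Piv Λ W x y K) (he : e ∈ K) :
    ¬ g.Reach (Λ ∪ W \ K) (g.src e) (g.tgt e) := fun hr => by
  obtain ⟨A, hA, h1, h2⟩ := h.2 e he
  refine h2 (Sub.reach (fun f hf => ?_) h1)
  by_cases hfe : f = e
  · subst hfe
    exact hr.mono (del_mono (insert_subset he (hA.trans (erase_subset _ _))))
  · exact reach_edge (by simp only [mem_union, mem_sdiff, mem_insert] at hf ⊢; grind)

theorem sum_bd_le {P : Finset (Finset V)} (hP : ∀ C ∈ P, ∃ v, g.blk T v = C)
    (hK : ∀ e ∈ W, ¬ g.Reach T (g.src e) (g.tgt e) → e ∈ K) :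
    ∑ C ∈ P, g.bd W C ≤ 2 * K.card := by
  unfold bd
  simp only [card_filter]
  rw [sum_comm]
  refine (sum_le_sum (g := fun e => 2 * if e ∈ K then 1 else 0) fun e he => ?_).trans ?_
  · rw [← card_filter]
    split_ifs with h
    · refine (card_le_card (t := {g.blk T (g.src e), g.blk T (g.tgt e)}) fun C hC => ?_).trans
        card_le_two
      obtain ⟨h1, h2⟩ := mem_filter.1 hC
      obtain ⟨v, rfl⟩ := hP C h1
      simp only [Cross, mem_blk] at h2
      simp only [mem_insert, mem_singleton, blk_eq_iff]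
      grind
    · rw [mul_zero, Nat.le_zero, card_eq_zero, filter_eq_empty_iff]
      intro C hC h2
      obtain ⟨v, rfl⟩ := hP C hC
      exact h (hK e he (cross_blk h2).1)
  · rw [← mul_sum, ← card_filter]
    exact Nat.mul_le_mul_left 2 (card_le_card fun e he => (mem_filter.1 he).2)

theorem Sel.closed (h : g.Sel Λ0 Λ W J Y) (K : Finset α) : g.Closed (Λ ∪ W \ K) Y :=
  h.cl.union fun e he => by have := h.ins e (mem_sdiff.1 he).1; unfold Cross; grind

theorem Piv.hang (h : g.Piv Λ W x y K) (hs : g.Sel Λ0 Λ W J Y) (hx : x ∈ Y) (hZ : Z ⊆ Y)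
    (hc : g.Closed Λ Z) (hne : Z.Nonempty) (hxZ : x ∉ Z) (hyZ : y ∉ Z)
    (hd : Disjoint Z (g.blk (Λ ∪ W \ K) v)) :
    ∃ e ∈ W, g.Cross Z e ∧ ¬ g.Cross (g.blk (Λ ∪ W \ K) v) e := by
  by_contra hn
  push Not at hn
  obtain ⟨e, he, h1⟩ := bd_pos.1 (hs.conn Z hZ hc hne ⟨x, mem_sdiff.2 ⟨hx, hxZ⟩⟩)
  have heK : e ∈ K := by
    by_contra hh
    exact closed_blk e (by simp [he, hh]) (hn e he h1)
  obtain ⟨A, hA, h2, h3⟩ := h.2 e heK
  have hsub := del_mono (Λ := Λ) (W := W) (insert_subset heK (hA.trans (erase_subset _ _)))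
  have := h2.ind (R := fun a b => g.Reach (Λ ∪ W \ insert e A) (if a ∈ Z then v else a)
    (if b ∈ Z then v else b)) (fun _ => Reach.rfl) (fun _ _ => Reach.symm)
    (fun _ _ _ => Reach.trans) (fun f hf => by
      by_cases hcr : g.Cross Z f
      · have hfW : f ∈ W := by
          rcases mem_union.1 hf with hh | hh
          · exact absurd hcr (hc f hh)
          · exact (mem_sdiff.1 hh).1
        have h4 := hn f hfW hcr
        have d1 := @disjoint_left.1 hd (g.src f)
        have d2 := @disjoint_left.1 hd (g.tgt f)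
        simp only [Cross, mem_blk] at hcr h4 d1 d2
        split_ifs with a1 a2 a2
        · exact Reach.rfl
        · exact Reach.mono (by grind) hsub
        · exact (Reach.mono (by grind) hsub).symm
        · grind
      · have hfe : f ≠ e := fun hh => hcr (hh ▸ h1)
        simp only [Cross, not_not] at hcr
        split_ifs with a1 a2 a2
        · exact Reach.rfl
        · grind
        · grind
        · exact reach_edge (by simp only [mem_union, mem_sdiff, mem_insert] at hf ⊢; grind))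
  rw [if_neg hxZ, if_neg hyZ] at this
  exact h3 this

theorem Piv.val (h : g.Piv Λ W x y K) (hs : g.Sel Λ0 Λ W J Y) (hx : x ∈ Y) (hv : v ∈ Y)
    (hu : u ∈ Y) (huv : u ∉ g.blk (Λ ∪ W \ K) v) :
    g.Val Λ (insert (g.ve x y) W) Y v u (g.blk (Λ ∪ W \ K) v) := by
  have hcl : g.Closed Λ (g.blk (Λ ∪ W \ K) v) := closed_blk.mono subset_union_left
  refine ⟨self_mem_blk, huv, (hs.closed K).blk_subset hv, fun D hD hc hne h1 h2 h3 => ?_⟩
  rcases h3 with h3 | h3
  · obtain ⟨d, hd⟩ := hne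
    obtain ⟨e, he, h4⟩ := exists_cross (mem_blk.1 (h3 hd)).symm hd h1
    refine ⟨e, ?_, h4, closed_blk e he⟩
    rcases mem_union.1 he with hh | hh
    · exact absurd h4 (hc e hh)
    · exact mem_insert_of_mem (mem_sdiff.1 hh).1
  by_cases hxy : x ∉ D ∧ y ∉ D
  · obtain ⟨e, he, h4⟩ := h.hang hs hx hD hc hne hxy.1 hxy.2 h3
    exact ⟨e, mem_insert_of_mem he, h4⟩
  by_contra hn
  push Not at hn
  have h5 := hn _ (mem_insert_self _ _)
  have d1 := @disjoint_left.1 h3 x
  have d2 := @disjoint_left.1 h3 y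
  rw [cross_ve, cross_ve] at h5
  obtain ⟨e, he, h6, h7⟩ := h.hang hs hx (Z := (Y \ D) \ g.blk (Λ ∪ W \ K) v)
    (sdiff_subset.trans sdiff_subset) ((hs.cl.sdiff hc).sdiff hcl) ⟨u, by simp [hu, h2, huv]⟩
    (by simp only [mem_sdiff]; grind) (by simp only [mem_sdiff]; grind) disjoint_sdiff_self_left
  have h8 := hn e (mem_insert_of_mem he)
  have h9 := hs.ins e he
  simp only [Cross, mem_sdiff] at h6 h7 h8
  grind

theorem Sel.ksum (hs : g.Sel Λ0 Λ W J Y) (hx : x ∈ Y) (hy : y ∈ Y) {m : ℝ} (m0 : 0 ≤ m)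
    (m1 : 4 * m ≤ Real.exp (-320)) :
    ∑ K ∈ W.powerset.filter (g.Piv Λ W x y), (m ^ 8) ^ K.card ≤ 2 * m ^ 4 := by
  have hs' := hs.insert hx hy
  set W' := Insert.insert (g.ve x y) W with hW'
  have e1 : Real.exp (-320) ≤ 1 := Real.exp_le_one_iff.2 (by norm_num)
  let out : Finset V → Finset (V × V) := fun C => (W'.filter (g.Cross C)).image fun e =>
    if g.src e ∈ C then (g.src e, g.tgt e) else (g.tgt e, g.src e)
  have main := anchored (fun C => m ^ g.bd W' C) (g.Att Λ W' Y) out (fun _ => by positivity) _ univ rfl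
    (fun c => by
      have h1 := hs'.count c.2 c.1
      refine le_trans ?_ (div_le_div_of_nonneg_right h1 (by norm_num : (0 : ℝ) ≤ 2))
      rw [sum_div]
      refine le_trans (sum_le_sum fun C hC => ?_) (sum_le_sum_of_subset_of_nonneg
        (fun C hC => mem_filter.2 ⟨mem_univ _, (mem_filter.1 hC).2.1⟩) fun _ _ _ => by positivity)
      have h2 : (2 : ℝ) ^ (out C).card ≤ 2 ^ g.bd W' C :=
        pow_le_pow_right₀ (by norm_num) card_image_le
      have h3 : (2 : ℝ) ^ 1 ≤ 2 ^ g.bd W' C := pow_le_pow_right₀ (by norm_num) (mem_filter.1 hC).2.2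
      have h4 := pow_le_pow_left₀ (by positivity) m1 (g.bd W' C)
      rw [show (4 : ℝ) = 2 * 2 by norm_num, mul_pow, mul_pow] at h4
      have h5 : 0 ≤ m ^ g.bd W' C := by positivity
      have h6 : 0 ≤ m ^ g.bd W' C * 2 ^ g.bd W' C := by positivity
      nlinarith) {(x, y)}
  let parts : Finset α → Finset (Finset V) := fun K => Y.image (g.blk (Λ ∪ W \ K))
  have rcv : ∀ K ∈ W.powerset.filter (g.Piv Λ W x y),
      K = W.filter fun e => ∃ C ∈ parts K, g.Cross C e := by
    intro K hK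
    rw [mem_filter, mem_powerset] at hK
    ext e
    rw [mem_filter]
    constructor
    · intro he
      refine ⟨hK.1 he, _, mem_image_of_mem _ (hs.ins e (hK.1 he)).1, ?_⟩
      have := hK.2.sep he
      simp [Cross, this, Reach.rfl]
    · rintro ⟨he, C, hC, h1⟩
      obtain ⟨v, -, rfl⟩ := mem_image.1 hC
      by_contra hn
      exact closed_blk e (by simp [he, hn]) h1
  have at1 : ∀ K, g.Piv Λ W x y K → ∀ v ∈ Y, ∀ u ∈ Y, u ∉ g.blk (Λ ∪ W \ K) v →
      g.Att Λ W' Y (g.blk (Λ ∪ W \ K) v) (u, v) := fun K hK v hv u hu huv =>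
    ⟨⟨hK.val hs hx hv hu huv, closed_blk.mono subset_union_left⟩,
      hs'.conn _ ((hs.closed K).blk_subset hv) (closed_blk.mono subset_union_left)
        ⟨v, self_mem_blk⟩ ⟨u, mem_sdiff.2 ⟨hu, huv⟩⟩⟩
  rw [card_singleton, pow_one] at main
  refine le_trans ?_ (mul_le_mul_of_nonneg_right main (by positivity))
  refine le_trans ?_ (mul_le_mul_of_nonneg_right (sum_le_sum_of_subset_of_nonneg
    (s := (W.powerset.filter (g.Piv Λ W x y)).image parts) ?_
      fun _ _ _ => prod_nonneg fun _ _ => by positivity) (by positivity))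
  · rw [sum_image fun K hK K' hK' hh => by rw [rcv K hK, rcv K' hK', hh], sum_mul]
    refine sum_le_sum fun K hK => ?_
    rw [mem_filter, mem_powerset] at hK
    rw [prod_pow_eq_pow_sum, ← pow_add, ← pow_mul]
    refine pow_le_pow_of_le_one m0 (by linarith) ?_
    have h1 := sum_bd_le (T := Λ ∪ W \ K) (W := W') (K := Insert.insert (g.ve x y) K) (P := parts K)
      (fun C hC => by obtain ⟨v, -, rfl⟩ := mem_image.1 hC; exact ⟨v, rfl⟩) fun e he hr => by
        by_contra hn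
        exact hr (reach_edge (by simp only [hW', mem_union, mem_sdiff, mem_insert] at *; grind))
    have h2 := card_insert_le (g.ve x y) K
    have h3 : 1 ≤ K.card := by
      refine card_pos.2 (nonempty_iff_ne_empty.2 ?_)
      rintro rfl
      obtain ⟨e, he, h4⟩ := bd_pos.1 (hs.conn _ ((hs.closed ∅).blk_subset hx)
        (closed_blk.mono subset_union_left) ⟨x, self_mem_blk⟩
        ⟨y, mem_sdiff.2 ⟨hy, fun hh => hK.2.1 (mem_blk.1 hh)⟩⟩)
      exact closed_blk e (by simp [he]) h4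
    omega
  · intro P hP
    obtain ⟨K, hK, rfl⟩ := mem_image.1 hP
    have hK := (mem_filter.1 hK).2
    refine mem_filter.2 ⟨by simp, fun D hD hne => ?_⟩
    by_cases hyD : g.blk (Λ ∪ W \ K) y ∈ D
    · exact ⟨_, hyD, (x, y), by simp, at1 K hK y hy x hx fun hh => hK.1 (mem_blk.1 hh).symm⟩
    have hb : ∀ C ∈ D, ∃ v ∈ Y, g.blk (Λ ∪ W \ K) v = C := fun C hC => mem_image.1 (hD hC)
    have mem : ∀ v, v ∈ D.biUnion id ↔ g.blk (Λ ∪ W \ K) v ∈ D := fun v => by
      simp only [mem_biUnion, id]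
      refine ⟨?_, fun hh => ⟨_, hh, self_mem_blk⟩⟩
      rintro ⟨C, hC, hv⟩
      obtain ⟨w, -, rfl⟩ := hb C hC
      rwa [← blk_eq_iff.2 (mem_blk.1 hv)]
    obtain ⟨e, he, h1⟩ := bd_pos.1 (hs.conn (D.biUnion id)
      (biUnion_subset.2 fun C hC => by
        obtain ⟨w, hw, rfl⟩ := hb C hC; exact (hs.closed K).blk_subset hw)
      (Closed.biUnion fun C hC => by
        obtain ⟨w, -, rfl⟩ := hb C hC; exact closed_blk.mono subset_union_left)
      (by obtain ⟨C, hC⟩ := hne; obtain ⟨w, -, rfl⟩ := hb C hC; exact ⟨w, (mem w).2 hC⟩)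
      ⟨y, mem_sdiff.2 ⟨hy, fun hh => hyD ((mem y).1 hh)⟩⟩)
    have h2 := hs.ins e he
    rw [Cross, mem, mem] at h1
    have h3 : ¬ g.Reach (Λ ∪ W \ K) (g.src e) (g.tgt e) := fun hh => h1 (by rw [blk_eq_iff.2 hh])
    have h4 : ¬ g.Reach (Λ ∪ W \ K) (g.tgt e) (g.src e) := fun hh => h3 hh.symm
    by_cases h5 : g.blk (Λ ∪ W \ K) (g.src e) ∈ D
    · refine ⟨_, h5, (g.tgt e, g.src e), Or.inr
        ⟨g.blk (Λ ∪ W \ K) (g.tgt e), mem_image_of_mem _ h2.2, fun hh => h1 (iff_of_true h5 hh),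
          mem_image.2 ⟨e, ?_, ?_⟩⟩, at1 K hK _ h2.1 _ h2.2 (by simpa)⟩
      · simp [hW', he, Cross, h4, Reach.rfl]
      · simp [h4]
    · refine ⟨g.blk (Λ ∪ W \ K) (g.tgt e), by_contra fun hh => h1 (iff_of_false h5 hh),
        (g.src e, g.tgt e), Or.inr ⟨_, mem_image_of_mem _ h2.1, h5,
          mem_image.2 ⟨e, ?_, ?_⟩⟩, at1 K hK _ h2.2 _ h2.1 (by simpa)⟩
      · simp [hW', he, Cross, h3, Reach.rfl]
      · simp [Reach.rfl]

end MG

end Pool.Agent.P.MP_e0c037_lc.FL
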