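import Pool.Agent.P.MP_e0c037_lc.FL.Parts

/-! Selection of a well-connected region, and the piece in which edges are deleted. -/

set_option linter.unusedSectionVars false

namespace Pool.Agent.P.MP_e0c037_lc.FL

open Finset
open scoped Classical

namespace MG

variable {α V : Type} [Fintype V] {g : MG α V} {T Λ Λ0 U0 W : Finset α} {J O P S S' Y : Finset V}
  {e : α}

theorem select (hO : g.Closed Λ O) (h0 : g.bd W O = 0) (h2 : 2 ≤ g.jc Λ J O)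
    (h1 : ∀ S ⊆ O, g.Closed Λ S → 1 ≤ g.jc Λ J S → 1 ≤ g.jc Λ J (O \ S) → 1 ≤ g.bd W S) :
    ∃ Y ⊆ O, g.Closed Λ Y ∧ 2 ≤ g.jc Λ J Y ∧ g.bd W Y < psi (g.jc Λ J Y) ∧
      (∀ S ⊆ Y, g.Closed Λ S → 1 ≤ g.jc Λ J S → g.jc Λ J S ≤ g.jc Λ J (Y \ S) →
        psi (g.jc Λ J S) ≤ g.bd W S ∧ 2 * g.bd W S < 5 * g.bd (g.ins W Y) S) ∧
      ∀ S ⊆ Y, g.Closed Λ S → g.jc Λ J S = 0 → g.bd W S ≤ 2 * g.bd (g.ins W Y) S := by
  set F := O.powerset.filter fun Y => g.Closed Λ Y ∧ 2 ≤ g.jc Λ J Y ∧ g.bd W Y < psi (g.jc Λ J Y)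
    with hF
  obtain ⟨Y1, hY1, m1⟩ := exists_min_image F (g.jc Λ J) ⟨O, mem_filter.2 ⟨by simp, hO, h2, by
    rw [h0]; linarith [one_le_psi (n := g.jc Λ J O) (by omega), Nat.cast_zero (R := ℝ)]⟩⟩
  obtain ⟨Y, hY, m2⟩ := exists_min_image (F.filter fun Y => g.jc Λ J Y = g.jc Λ J Y1) (g.bd W)
    ⟨Y1, mem_filter.2 ⟨hY1, rfl⟩⟩
  obtain ⟨hY, e1⟩ := mem_filter.1 hY
  obtain ⟨hYO, c1, c2, c3⟩ := mem_filter.1 hY
  rw [mem_powerset] at hYO
  have key : ∀ S ⊆ Y, g.Closed Λ S → 1 ≤ g.jc Λ J S → 1 ≤ g.jc Λ J (Y \ S) →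
      psi (g.jc Λ J S) ≤ g.bd W S := by
    intro S hS hc a1 a2
    rcases a1.eq_or_lt with a3 | a3
    · rw [← a3, psi_one]
      exact_mod_cast h1 S (hS.trans hYO) hc a1
        (a2.trans (jc_mono (sdiff_subset_sdiff hYO Subset.rfl)))
    · by_contra hn
      have := m1 S (mem_filter.2 ⟨mem_powerset.2 (hS.trans hYO), hc, a3, not_le.1 hn⟩)
      have := jc_split (J := J) hc hS
      omega
  refine ⟨Y, hYO, c1, c2, c3, fun S hS hc a1 a2 => ?_, fun S hS hc a1 => ?_⟩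
  · have b1 := key S hS hc a1 (a1.trans a2)
    have b2 := key (Y \ S) sdiff_subset (c1.sdiff hc) (a1.trans a2)
      (by rwa [Finset.sdiff_sdiff_eq_self hS])
    have b3 := psi_add a2
    rw [← jc_split hc hS] at b3
    have b4 : (g.bd W S : ℝ) + g.bd W (Y \ S) = g.bd W Y + 2 * g.bd (g.ins W Y) S := by
      exact_mod_cast bd_split (g := g) (W := W) hS
    refine ⟨b1, ?_⟩
    have : 2 * (g.bd W S : ℝ) < 5 * g.bd (g.ins W Y) S := by linarith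
    exact_mod_cast this
  · have b1 := jc_split (J := J) hc hS
    rw [a1, zero_add] at b1
    have b2 := bd_split (g := g) (W := W) hS
    by_contra hn
    have b3 : (g.bd W (Y \ S) : ℝ) ≤ g.bd W Y := Nat.cast_le.2 (by omega)
    have := m2 (Y \ S) (mem_filter.2 ⟨mem_filter.2 ⟨mem_powerset.2 (sdiff_subset.trans hYO),
      c1.sdiff hc, b1 ▸ c2, by rw [← b1]; linarith⟩, b1 ▸ e1⟩)
    omega

theorem jc_biUnion_le (Q : Finset (Finset V)) :
    g.jc Λ J (Q.biUnion id) ≤ ∑ S ∈ Q, g.jc Λ J S := by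
  refine (card_le_card fun B hB => ?_).trans card_biUnion_le
  obtain ⟨x, hx, rfl⟩ := mem_image.1 hB
  obtain ⟨S, hS, h1⟩ := mem_biUnion.1 (mem_inter.1 hx).1
  exact mem_biUnion.2 ⟨S, hS, mem_image_of_mem _ (mem_inter.2 ⟨h1, (mem_inter.1 hx).2⟩)⟩

theorem bd_sdiff (h : T ⊆ W) : g.bd W S = g.bd T S + g.bd (W \ T) S := by
  unfold bd
  rw [← card_union_of_disjoint (disjoint_filter_filter disjoint_sdiff), ← filter_union,
    union_sdiff_of_subset h]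

theorem tau_mono (h : S ⊆ S') (h' : S' ⊆ P) :
    (W \ g.ins W P).filter (g.Cross S) ⊆ (W \ g.ins W P).filter (g.Cross S') := fun e he => by
  have := @h (g.src e); have := @h (g.tgt e); have := @h' (g.src e); have := @h' (g.tgt e)
  simp only [mem_filter, mem_sdiff, ins, Cross] at he ⊢
  grind

theorem mem_parts {Q : Finset (Finset V)} (hQ : ∀ C ∈ Q, ∃ v, g.blk T v = C) (v : V) :
    v ∈ Q.biUnion id ↔ g.blk T v ∈ Q := by
  simp only [mem_biUnion, id]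
  refine ⟨?_, fun hh => ⟨_, hh, self_mem_blk⟩⟩
  rintro ⟨C, hC, hv⟩
  obtain ⟨w, rfl⟩ := hQ C hC
  rwa [← blk_eq_iff.2 (mem_blk.1 hv)]

theorem k_le_parts {C : Finset α} (hP : g.Closed Λ0 P) (hne : P.Nonempty) (hC : C ⊆ g.ins W P) :
    g.k (Λ0 ∪ C) + 1 ≤ g.k (Λ0 ∪ g.ins W P) + (P.image (g.blk (Λ0 ∪ C))).card := by
  have e1 : ∀ T, g.k T = g.jc T univ univ := fun T => by rw [k_eq_card, jc, inter_self]
  have c0 : g.Closed (Λ0 ∪ g.ins W P) P := hP.union closed_ins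
  have c1 : g.Closed (Λ0 ∪ C) P := c0.mono (union_subset_union Subset.rfl hC)
  rw [e1, e1, jc_split c0 (subset_univ P), jc_split c1 (subset_univ P)]
  have a1 := sz_pos (g := g) (Λ := Λ0 ∪ g.ins W P) hne
  have a2 : g.jc (Λ0 ∪ C) univ P = (P.image (g.blk (Λ0 ∪ C))).card := by rw [jc, inter_univ]
  have a3 : g.jc (Λ0 ∪ C) univ (univ \ P) = g.jc (Λ0 ∪ g.ins W P) univ (univ \ P) := by
    unfold jc
    congr 1
    refine image_congr fun v hv => Subset.antisymm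
      (sub_of_subset (union_subset_union Subset.rfl hC)).blk_subset
      (Closed.blk_subset ((closed_blk.mono subset_union_left).union fun e he => ?_) self_mem_blk)
    have h1 : v ∉ P := by simpa using hv
    have h2 := (mem_filter.1 he).2
    have h3 : ∀ x ∈ P, x ∉ g.blk (Λ0 ∪ C) v := fun x hx hh => h1 ((c1.reach (mem_blk.1 hh)).2 hx)
    exact not_not.2 (iff_of_false (h3 _ h2.1) (h3 _ h2.2))
  omega

variable (g) in
/-- The piece of the graph in which edges get deleted. -/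
structure Piece (U0 Λ0 : Finset α) (P : Finset V) : Prop where
  cl : g.Closed Λ0 P
  two : 2 ≤ g.jc Λ0 univ P
  cut : ∀ S ⊆ P, g.Closed Λ0 S → S.Nonempty → (P \ S).Nonempty → 2 ≤ g.bd (g.ins U0 P) S
  big : ∀ S ⊆ P, g.Closed Λ0 S → S.Nonempty → g.jc Λ0 univ S ≤ g.jc Λ0 univ (P \ S) →
    2 * psi (g.jc Λ0 univ S) ≤ 5 * g.bd (g.ins U0 P) S
  ratio : ∀ C ⊆ g.ins U0 P,
    13 * g.k (Λ0 ∪ C) ≤ 13 * g.k (Λ0 ∪ g.ins U0 P) + 12 * (g.ins U0 P \ C).card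

theorem ratio_aux (hP : g.Closed Λ0 P) (hne : P.Nonempty)
    (hb : g.bd U0 P < psi (g.jc Λ0 univ P))
    (cut : ∀ S ⊆ P, g.Closed Λ0 S → S.Nonempty → (P \ S).Nonempty → 2 ≤ g.bd (g.ins U0 P) S)
    (sm : ∀ S ⊆ P, g.Closed Λ0 S → S.Nonempty → g.jc Λ0 univ S ≤ g.jc Λ0 univ (P \ S) →
      3 ≤ g.bd U0 S ∧ psi (g.jc Λ0 univ S) ≤ g.bd U0 S ∧ 2 * g.bd U0 S < 5 * g.bd (g.ins U0 P) S)
    {C : Finset α} (hC : C ⊆ g.ins U0 P) :
    13 * g.k (Λ0 ∪ C) ≤ 13 * g.k (Λ0 ∪ g.ins U0 P) + 12 * (g.ins U0 P \ C).card := by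
  have k1 := k_le_parts hP hne hC
  set E := g.ins U0 P with hE
  set Q := P.image (g.blk (Λ0 ∪ C)) with hQ
  have c1 : g.Closed (Λ0 ∪ C) P := hP.union (closed_ins.mono hC)
  have hq : ∀ S ∈ Q, (∃ v, g.blk (Λ0 ∪ C) v = S) ∧ S ⊆ P ∧ g.Closed Λ0 S ∧ S.Nonempty := by
    intro S hS
    obtain ⟨v, hv, rfl⟩ := mem_image.1 hS
    exact ⟨⟨v, rfl⟩, c1.blk_subset hv, closed_blk.mono subset_union_left, v, self_mem_blk⟩
  have dj : ∀ S ∈ Q, ∀ S' ∈ Q, S ≠ S' → Disjoint S S' := by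
    intro S hS S' hS' hn
    obtain ⟨v, rfl⟩ := (hq S hS).1
    obtain ⟨w, rfl⟩ := (hq S' hS').1
    exact disj_blk fun hh => hn (blk_eq_iff.2 hh)
  have s1 := sum_bd_le (W := E) (K := E \ C) (fun S hS => (hq S hS).1) fun e he hr =>
    mem_sdiff.2 ⟨he, fun hh => hr (reach_edge (mem_union_right _ hh))⟩
  by_cases h1 : Q.card ≤ 1
  · omega
  have two : ∀ S ∈ Q, 2 ≤ g.bd E S := fun S hS => by
    obtain ⟨S', hS', hn⟩ := exists_mem_ne (not_le.1 h1) S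
    obtain ⟨-, a1, a2, a3⟩ := hq S hS
    exact cut S a1 a2 a3 ((hq S' hS').2.2.2.mono (subset_sdiff.2 ⟨(hq S' hS').2.1, dj _ hS' _ hS hn⟩))
  obtain ⟨L, hL, mL⟩ := exists_max_image Q (g.jc Λ0 univ) (card_pos.1 (by omega))
  set Q2 := Q.filter fun S => S ≠ L ∧ g.bd E S ≤ 2 with hQ2
  set Q3 := Q.filter fun S => ¬ (S ≠ L ∧ g.bd E S ≤ 2) with hQ3
  have s2 : Q2.card + Q3.card = Q.card := card_filter_add_card_filter_not _
  have s3 : ∑ S ∈ Q2, g.bd E S + ∑ S ∈ Q3, g.bd E S = ∑ S ∈ Q, g.bd E S :=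
    sum_filter_add_sum_filter_not _ _ _
  have s4 : Q2.card • 2 ≤ ∑ S ∈ Q2, g.bd E S :=
    card_nsmul_le_sum _ _ _ fun S hS => two S (mem_filter.1 hS).1
  have s5 : Q3.card • 3 ≤ ∑ S ∈ Q3, (g.bd E S + if S = L then 1 else 0) :=
    card_nsmul_le_sum _ _ _ fun S hS => by
      have := two S (mem_filter.1 hS).1
      have := (mem_filter.1 hS).2
      split_ifs <;> grind
  have s6 : 1 ≤ Q3.card := card_pos.2 ⟨L, mem_filter.2 ⟨hL, by simp⟩⟩
  rw [sum_add_distrib, sum_ite_eq', smul_eq_mul] at s5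
  rw [smul_eq_mul] at s4
  have s7 : (if L ∈ Q3 then 1 else 0) ≤ 1 := by split_ifs <;> omega
  by_cases h2 : Q2.card ≤ 12
  · omega
  have hE' : E ⊆ U0 := filter_subset _ _
  have sm2 : ∀ S ∈ Q2, 1 ≤ g.bd (U0 \ E) S ∧ g.jc Λ0 univ S ≤ 256 := by
    intro S hS
    obtain ⟨hS, a0, a4⟩ := mem_filter.1 hS
    obtain ⟨-, a1, a2, a3⟩ := hq S hS
    obtain ⟨b1, b2, b3⟩ := sm S a1 a2 a3 ((mL S hS).trans
      (jc_mono (subset_sdiff.2 ⟨(hq L hL).2.1, dj _ hL _ hS a0.symm⟩)))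
    have := bd_sdiff (g := g) (S := S) hE'
    exact ⟨by omega, le_of_psi (b2.trans (by exact_mod_cast (by omega : g.bd U0 S ≤ 4)))⟩
  set D := Q2.biUnion id with hD
  have d1 : D ⊆ P := biUnion_subset.2 fun S hS => (hq S (mem_filter.1 hS).1).2.1
  have d2 : g.Closed Λ0 D := Closed.biUnion fun S hS => (hq S (mem_filter.1 hS).1).2.2.1
  have d3 : Q2.card • 1 ≤ g.bd (U0 \ E) D := by
    refine (card_nsmul_le_sum _ _ _ fun S hS => (sm2 S hS).1).trans ?_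
    unfold bd
    rw [← card_biUnion]
    · exact card_le_card (biUnion_subset.2 fun S hS =>
        tau_mono (subset_biUnion_of_mem id hS) d1)
    · intro S hS S' hS' hn
      have b1 := (mem_filter.1 hS).1
      have b2 := (mem_filter.1 hS').1
      refine disjoint_left.2 fun e he he' => ?_
      have := @disjoint_left.1 (dj S b1 S' b2 hn) (g.src e)
      have := @disjoint_left.1 (dj S b1 S' b2 hn) (g.tgt e)
      have := @(hq S b1).2.1 (g.src e); have := @(hq S b1).2.1 (g.tgt e)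
      have := @(hq S' b2).2.1 (g.src e); have := @(hq S' b2).2.1 (g.tgt e)
      simp only [mem_filter, mem_sdiff, hE, ins, Cross] at he he'
      grind
  have d4 : g.bd (U0 \ E) D ≤ g.bd U0 P :=
    (card_le_card (tau_mono d1 Subset.rfl)).trans (bd_mono sdiff_subset)
  have d5 : g.jc Λ0 univ D ≤ Q2.card • 256 :=
    (jc_biUnion_le Q2).trans (sum_le_card_nsmul _ _ _ fun S hS => (sm2 S hS).2)
  rw [smul_eq_mul] at d3 d5
  have d6 : (Q2.card : ℝ) ≤ g.bd U0 P := Nat.cast_le.2 (by omega)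
  have d7 : (13 : ℝ) ≤ Q2.card := by exact_mod_cast (by omega : 13 ≤ Q2.card)
  have d8 : 512 * Q2.card ≤ g.jc Λ0 univ P := by
    have := psi_big (p := g.jc Λ0 univ P) (by linarith)
    have : 512 * (Q2.card : ℝ) ≤ g.jc Λ0 univ P := by linarith
    exact_mod_cast this
  have d9 := jc_split (J := univ) d2 d1
  obtain ⟨S0, hS0⟩ := card_pos.1 (by omega : 0 < Q2.card)
  obtain ⟨-, -, b3⟩ := sm D d1 d2 ((hq S0 (mem_filter.1 hS0).1).2.2.2.mono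
    (subset_biUnion_of_mem id hS0)) (by omega)
  have b4 := bd_sdiff (g := g) (S := D) hE'
  have b5 : g.bd E D ≤ ∑ S ∈ Q3, g.bd E S := by
    refine (card_le_card fun e he => ?_).trans card_biUnion_le
    obtain ⟨a1, a2⟩ := mem_filter.1 he
    have mp := mem_parts (Q := Q2) fun S hS => (hq S (mem_filter.1 hS).1).1
    rw [Cross, mp, mp] at a2
    have a3 : ¬ g.Reach (Λ0 ∪ C) (g.src e) (g.tgt e) := fun hh => a2 (by rw [blk_eq_iff.2 hh])
    have a4 : ¬ g.Reach (Λ0 ∪ C) (g.tgt e) (g.src e) := fun hh => a3 hh.symm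
    have a5 : ∀ v ∈ P, g.blk (Λ0 ∪ C) v ∉ Q2 → g.blk (Λ0 ∪ C) v ∈ Q3 := fun v hv hn =>
      mem_filter.2 ⟨mem_image_of_mem _ hv, fun hh => hn (mem_filter.2 ⟨mem_image_of_mem _ hv, hh⟩)⟩
    by_cases a6 : g.blk (Λ0 ∪ C) (g.src e) ∈ Q2
    · exact mem_biUnion.2 ⟨_, a5 _ (mem_filter.1 a1).2.2 fun hh => a2 (iff_of_true a6 hh),
        mem_filter.2 ⟨a1, by simp [Cross, a4, Reach.rfl]⟩⟩
    · exact mem_biUnion.2 ⟨_, a5 _ (mem_filter.1 a1).2.1 a6,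
        mem_filter.2 ⟨a1, by simp [Cross, a3, Reach.rfl]⟩⟩
  omega

theorem exists_piece (h3 : ∀ S, g.Closed Λ0 S → g.bd U0 S = 0 ∨ 3 ≤ g.bd U0 S) (he : e ∈ U0)
    (hr : ¬ g.Reach Λ0 (g.src e) (g.tgt e)) : ∃ P, g.Piece U0 Λ0 P := by
  have ne : ∀ S, 1 ≤ g.jc Λ0 univ S → S.Nonempty := fun S h => by
    obtain ⟨x, hx, -⟩ := jc_pos.1 h; exact ⟨x, hx⟩
  have thr : ∀ S ⊆ g.blk (Λ0 ∪ U0) (g.src e), g.Closed Λ0 S → S.Nonempty →
      (g.blk (Λ0 ∪ U0) (g.src e) \ S).Nonempty → 3 ≤ g.bd U0 S := by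
    rintro S hS hc ⟨x, hx⟩ ⟨y, hy⟩
    refine (h3 S hc).resolve_left fun h0 => (mem_sdiff.1 hy).2 ?_
    exact ((hc.union (bd_eq_zero.1 h0)).reach
      ((mem_blk.1 (hS hx)).symm.trans (mem_blk.1 (mem_sdiff.1 hy).1))).1 hx
  obtain ⟨P, hP, c1, c2, c3, c4, -⟩ := select (J := univ) (W := U0) (Λ := Λ0)
    (O := g.blk (Λ0 ∪ U0) (g.src e)) (closed_blk.mono subset_union_left)
    (bd_eq_zero.2 (closed_blk.mono subset_union_right))
    (two_le_jc self_mem_blk (mem_blk.2 (reach_edge (mem_union_right _ he))) (mem_univ _)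
      (mem_univ _) hr)
    fun S hS hc a1 a2 => by have := thr S hS hc (ne _ a1) (ne _ a2); omega
  have sm : ∀ S ⊆ P, g.Closed Λ0 S → S.Nonempty → g.jc Λ0 univ S ≤ g.jc Λ0 univ (P \ S) →
      3 ≤ g.bd U0 S ∧ psi (g.jc Λ0 univ S) ≤ g.bd U0 S ∧ 2 * g.bd U0 S < 5 * g.bd (g.ins U0 P) S :=
    fun S hS hc a1 a2 => ⟨thr S (hS.trans hP) hc a1 ((ne _ ((sz_pos a1).trans a2)).mono
      (sdiff_subset_sdiff hP Subset.rfl)), c4 S hS hc (sz_pos a1) a2⟩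
  have cut : ∀ S ⊆ P, g.Closed Λ0 S → S.Nonempty → (P \ S).Nonempty →
      2 ≤ g.bd (g.ins U0 P) S := by
    intro S hS hc a1 a2
    rcases le_total (g.jc Λ0 univ S) (g.jc Λ0 univ (P \ S)) with h | h
    · have := sm S hS hc a1 h; omega
    · have := sm (P \ S) sdiff_subset (c1.sdiff hc) a2 (by rwa [Finset.sdiff_sdiff_eq_self hS])
      rw [bd_compl hS] at this
      omega
  refine ⟨P, c1, c2, cut, fun S hS hc a1 a2 => ?_, fun C hC =>
    ratio_aux c1 (ne _ (by omega)) c3 cut sm hC⟩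
  obtain ⟨-, b1, b2⟩ := sm S hS hc a1 a2
  have : 2 * (g.bd U0 S : ℝ) < 5 * g.bd (g.ins U0 P) S := by exact_mod_cast b2
  linarith

end MG

end Pool.Agent.P.MP_e0c037_lc.FL
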