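import Pool.Agent.P.MP_e0c037_lc.FL.Select

/-! The normalised flow polynomial of a contracted graph and the states of the induction. -/

set_option linter.unusedSectionVars false

namespace Pool.Agent.P.MP_e0c037_lc.FL

open Finset
open scoped Classical

namespace MG

variable {α V : Type} [Fintype V] (g : MG α V)

/-- Normalised flow polynomial: edges `U`, with `Λ` contracted. -/
noncomputable def Zn (q : ℝ) (U Λ : Finset α) : ℝ := Ex (1 - q)⁻¹ U fun A => q ^ g.k (Λ ∪ A)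

/-- Virtual edges from `o` to the vertices of `J`. -/
noncomputable def st (o : V) (J : Finset V) : Finset α := J.image (g.ve o)

/-- The ends of a set of edges. -/
noncomputable def ends (K : Finset α) : Finset V := K.image g.src ∪ K.image g.tgt

/-- A state of the induction. -/
structure St (U0 Λ0 : Finset α) (P : Finset V) (o : V) (U Λ : Finset α) (J : Finset V) : Prop where
  lt : U ⊂ U0
  lo : Λ0 ⊆ Λ
  hi : g.Sub Λ (Λ0 ∪ g.ins U0 P)
  mks : J ⊆ P
  base : o ∈ J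
  del : ∀ e ∈ g.ins U0 P, e ∉ U → g.Reach Λ (g.src e) (g.tgt e) ∨ (g.src e ∈ J ∧ g.tgt e ∈ J)

/-- The budget for new components. -/
def NB (U0 Λ0 : Finset α) (P : Finset V) (U Λ : Finset α) (n : ℕ) : Prop :=
  ∀ C ⊆ g.ins U P, 13 * g.k (Λ ∪ C) ≤ 13 * g.k (Λ0 ∪ g.ins U0 P) + n + 12 * (g.ins U P \ C).card

variable {g} {q : ℝ} {T Λ Λ' Λ0 U U0 W K : Finset α} {J J' P S Y : Finset V} {e : α} {o x y : V}
  {n : ℕ}

theorem Zn_insert (he : e ∉ U) : g.Zn q (insert e U) Λ =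
    (1 - (1 - q)⁻¹) * g.Zn q U (insert e Λ) + (1 - q)⁻¹ * g.Zn q U Λ := by
  unfold Zn
  rw [Ex_insert he]
  simp only [union_insert, insert_union]

theorem Zn_erase (he : e ∈ U) : g.Zn q U Λ =
    (1 - (1 - q)⁻¹) * g.Zn q (U.erase e) (insert e Λ) + (1 - q)⁻¹ * g.Zn q (U.erase e) Λ := by
  rw [← Zn_insert (notMem_erase e U), insert_erase he]

theorem Zn_congr (h : g.Sub Λ Λ') (h' : g.Sub Λ' Λ) : g.Zn q U Λ = g.Zn q U Λ' :=
  Ex_congr fun A _ => by rw [k_congr (h.union_right A) (h'.union_right A)]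

theorem Zn_ins (h : g.Reach Λ (g.src e) (g.tgt e)) : g.Zn q U (insert e Λ) = g.Zn q U Λ :=
  Zn_congr ((sub_of_subset Subset.rfl).insert h) (sub_of_subset (subset_insert _ _))

theorem Zn_loops (hK : g.Sub K Λ) : g.Zn q (U \ K) Λ = g.Zn q U Λ := by
  induction K using Finset.induction_on with
  | empty => rw [sdiff_empty]
  | insert e K _ ih =>
    rw [← ih fun x hx => hK x (mem_insert_of_mem hx), sdiff_insert]
    by_cases h : e ∈ U \ K
    · rw [Zn_erase h, Zn_ins (hK e (mem_insert_self _ _))]; ring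
    · rw [erase_eq_of_notMem h]

theorem k_cross (hc : g.Closed T S) (he : g.Cross S e) : g.k (insert e T) + 1 = g.k T :=
  k_insert.2 fun h => he (hc.reach h)

theorem Zn_bridge (hq : q ≠ 1) (hc : g.Closed Λ S) (h1 : g.bd U S = 1) : g.Zn q U Λ = 0 := by
  obtain ⟨e, he⟩ := card_eq_one.1 h1
  have h2 : e ∈ U.filter (g.Cross S) := he ▸ mem_singleton_self e
  rw [mem_filter] at h2
  have h3 : g.Zn q (U.erase e) Λ = q * g.Zn q (U.erase e) (insert e Λ) := by
    unfold Zn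
    rw [← Ex_mul]
    refine Ex_congr fun A hA => ?_
    rw [insert_union, ← k_cross (hc.union fun f hf hh => ?_) h2.2, pow_succ']
    have h4 := mem_erase.1 (hA hf)
    exact h4.1 (mem_singleton.1 (he ▸ mem_filter.2 ⟨h4.2, hh⟩))
  have : 1 - q ≠ 0 := sub_ne_zero.2 hq.symm
  rw [Zn_erase h2.1, h3]
  field_simp
  ring

theorem reach_ve (h : g.ve x y ∈ T) : g.Reach T x y := by
  simpa only [g.src_ve, g.tgt_ve] using reach_edge (g := g) h

theorem Zn_expand (hW : W ⊆ U) : g.Zn q U Λ - g.Zn q U (insert (g.ve x y) Λ) =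
    ∑ K ∈ W.powerset, mob (g.sepf Λ W x y) K * (1 - q)⁻¹ ^ K.card *
      (g.Zn q (U \ K) Λ - g.Zn q (U \ K) (insert (g.ve x y) Λ)) := by
  unfold Zn
  simp only [← Ex_sub]
  rw [← Ex_expand hW]
  refine Ex_congr fun A _ => ?_
  unfold sepf
  split_ifs with h
  · rw [insert_union, k_insert.1, sub_self, mul_zero]
    rw [g.src_ve, g.tgt_ve]
    exact h.mono (union_subset_union Subset.rfl (by rw [sdiff_sdiff_right_self]; simp))
  · rw [mul_one]

theorem reach_st (hx : x ∈ J) : g.Reach (Λ ∪ g.st o J) o x :=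
  reach_ve (mem_union_right _ (mem_image_of_mem _ hx))

theorem sub_st (h : ∀ x ∈ J, g.Reach T o x) : g.Sub (g.st o J) T := fun e he => by
  obtain ⟨x, hx, rfl⟩ := mem_image.1 he
  rw [g.src_ve, g.tgt_ve]
  exact h x hx

theorem sub_ve_st (hx : x ∈ J) (hy : y ∈ J) :
    g.Sub (insert (g.ve x y) Λ) (Λ ∪ g.st o J) :=
  (sub_of_subset subset_union_left).insert (by
    rw [g.src_ve, g.tgt_ve]; exact (reach_st hx).symm.trans (reach_st hy))

theorem sub_ve_st' (hx : x ∈ J) (hy : y ∈ J) :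
    g.Sub (insert (g.ve x y) Λ ∪ g.st o J) (Λ ∪ g.st o J) :=
  (sub_ve_st hx hy).union (sub_of_subset subset_union_right)

theorem sub_st_ins : g.Sub (Λ ∪ g.st o J) (insert e Λ ∪ g.st o J) :=
  sub_of_subset (union_subset_union (subset_insert _ _) Subset.rfl)

theorem card_ends : (g.ends K).card ≤ 2 * K.card := by
  have := card_union_le (K.image g.src) (K.image g.tgt)
  have := card_image_le (s := K) (f := g.src)
  have := card_image_le (s := K) (f := g.tgt)
  unfold ends; omega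

theorem mem_ends (he : e ∈ K) : g.src e ∈ g.ends K ∧ g.tgt e ∈ g.ends K :=
  ⟨mem_union_left _ (mem_image_of_mem _ he), mem_union_right _ (mem_image_of_mem _ he)⟩

theorem ends_subset (hK : K ⊆ g.ins U P) : g.ends K ⊆ P :=
  union_subset (image_subset_iff.2 fun _ he => (mem_filter.1 (hK he)).2.1)
    (image_subset_iff.2 fun _ he => (mem_filter.1 (hK he)).2.2)

theorem k_le_union (A B : Finset α) : g.k A ≤ g.k (A ∪ B) + B.card := by
  induction B using Finset.induction_on with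
  | empty => simp
  | insert e B he ih =>
    have := g.isK.ge (A ∪ B) e
    rw [union_insert, card_insert_of_notMem he]
    omega

theorem Piece.reach (h : g.Piece U0 Λ0 P) (hx : x ∈ P) (hy : y ∈ P) :
    g.Reach (Λ0 ∪ g.ins U0 P) x y := by
  by_contra hn
  have := h.cut _ ((h.cl.union closed_ins).blk_subset hx) (closed_blk.mono subset_union_left)
    ⟨x, self_mem_blk⟩ ⟨y, mem_sdiff.2 ⟨hy, fun hh => hn (mem_blk.1 hh)⟩⟩
  rw [bd_eq_zero.2 (closed_blk.mono subset_union_right)] at this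
  omega

theorem St.card (h : g.St U0 Λ0 P o U Λ J) : U.card < U0.card := card_lt_card h.lt

theorem St.ins (h : g.St U0 Λ0 P o U Λ J) : g.ins U P ⊆ g.ins U0 P := filter_subset_filter _ h.lt.1

theorem St.closed (h : g.St U0 Λ0 P o U Λ J) (hP : g.Piece U0 Λ0 P) : g.Closed Λ P :=
  (hP.cl.union closed_ins).sub h.hi

theorem St.grow (h : g.St U0 Λ0 P o U Λ J) (h1 : Λ ⊆ Λ') (h2 : g.Sub Λ' (Λ0 ∪ g.ins U0 P)) :
    g.St U0 Λ0 P o U Λ' J :=
  ⟨h.lt, h.lo.trans h1, h2, h.mks, h.base, fun e he he' => (h.del e he he').imp_left (·.mono h1)⟩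

theorem St.ve (h : g.St U0 Λ0 P o U Λ J) (hP : g.Piece U0 Λ0 P) (hx : x ∈ P) (hy : y ∈ P) :
    g.St U0 Λ0 P o U (insert (g.ve x y) Λ) J :=
  h.grow (subset_insert _ _) (h.hi.insert (by rw [g.src_ve, g.tgt_ve]; exact hP.reach hx hy))

theorem St.star (h : g.St U0 Λ0 P o U Λ J) (hP : g.Piece U0 Λ0 P) (hJ : J' ⊆ P) :
    g.St U0 Λ0 P o U (Λ ∪ g.st o J') J :=
  h.grow subset_union_left (h.hi.union (sub_st fun _ hx => hP.reach (h.mks h.base) (hJ hx)))

theorem St.good (h : g.St U0 Λ0 P o U Λ J) (hP : g.Piece U0 Λ0 P) :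
    g.St U0 Λ0 P o U (Λ ∪ g.st o J) {o} :=
  have h' := h.star hP h.mks
  ⟨h.lt, h'.lo, h'.hi, singleton_subset_iff.2 (h.mks h.base), mem_singleton_self o,
    fun e he he' => Or.inl ((h'.del e he he').elim id
      fun hh => (reach_st hh.1).symm.trans (reach_st hh.2))⟩

theorem St.mark (h : g.St U0 Λ0 P o U Λ J) (h1 : J ⊆ J') (h2 : J' ⊆ P) : g.St U0 Λ0 P o U Λ J' :=
  ⟨h.lt, h.lo, h.hi, h2, h1 h.base, fun e he he' =>
    (h.del e he he').imp_right fun hh => ⟨h1 hh.1, h1 hh.2⟩⟩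

theorem St.drop (h : g.St U0 Λ0 P o U Λ J) (hK : K ⊆ g.ins U P) :
    g.St U0 Λ0 P o (U \ K) Λ (J ∪ g.ends K) :=
  ⟨sdiff_subset.trans_ssubset h.lt, h.lo, h.hi, union_subset h.mks (ends_subset hK),
    mem_union_left _ h.base, fun e he he' => by
      by_cases h1 : e ∈ K
      · exact Or.inr ⟨mem_union_right _ (mem_ends h1).1, mem_union_right _ (mem_ends h1).2⟩
      · exact (h.del e he fun hh => he' (mem_sdiff.2 ⟨hh, h1⟩)).imp_right
          fun hh => ⟨mem_union_left _ hh.1, mem_union_left _ hh.2⟩⟩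

theorem NB.grow (h : g.NB U0 Λ0 P U Λ n) (h1 : Λ ⊆ Λ') : g.NB U0 Λ0 P U Λ' n := fun C hC => by
  have := h C hC
  have := g.isK.anti (union_subset_union h1 (Subset.rfl (s := C)))
  omega

theorem NB.drop (h : g.NB U0 Λ0 P U Λ n) (K : Finset α) :
    g.NB U0 Λ0 P (U \ K) Λ (n + 12 * K.card) := fun C hC => by
  have := h C (hC.trans (filter_subset_filter _ sdiff_subset))
  have h2 : (g.ins U P \ C).card ≤ (K ∪ g.ins (U \ K) P \ C).card := card_le_card fun e he => by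
    simp only [ins, mem_sdiff, mem_filter, mem_union] at he ⊢
    grind
  have := card_union_le K (g.ins (U \ K) P \ C)
  omega

theorem St.nb (h : g.St U0 Λ0 P o U Λ {o}) (hP : g.Piece U0 Λ0 P) : g.NB U0 Λ0 P U Λ 0 := by
  intro C hC
  have h1 := hP.ratio (C ∪ g.ins U0 P \ U) (union_subset (hC.trans h.ins) sdiff_subset)
  have h2 : g.Sub (Λ0 ∪ (C ∪ g.ins U0 P \ U)) (Λ ∪ C) :=
    (sub_of_subset (h.lo.trans subset_union_left)).union
      ((sub_of_subset subset_union_right).union fun e he => by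
        rcases h.del e (mem_sdiff.1 he).1 (mem_sdiff.1 he).2 with hh | hh
        · exact hh.mono subset_union_left
        · rw [mem_singleton.1 hh.1, mem_singleton.1 hh.2]; exact Reach.rfl)
  have h3 : (g.ins U0 P \ (C ∪ g.ins U0 P \ U)).card ≤ (g.ins U P \ C).card :=
    card_le_card fun e he => by
      simp only [MG.ins, mem_sdiff, mem_filter, mem_union] at he ⊢
      grind
  have := h2.k_le
  omega

theorem St.bd_le (h : g.St U0 Λ0 P o U Λ J) (hc : g.Closed Λ S) (h0 : g.jc Λ J S = 0) :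
    g.bd (g.ins U0 P) S ≤ g.bd (g.ins U P) S := card_le_card fun e he => by
  obtain ⟨h1, h2⟩ := mem_filter.1 he
  refine mem_filter.2 ⟨mem_filter.2 ⟨?_, (mem_filter.1 h1).2⟩, h2⟩
  by_contra hn
  rcases h.del e h1 hn with hh | hh
  · exact h2 (hc.reach hh)
  · have := disjoint_right.1 (jc_eq_zero.1 h0)
    exact h2 (iff_of_false (this hh.1) (this hh.2))

theorem St.sel (h : g.St U0 Λ0 P o U Λ J) (hP : g.Piece U0 Λ0 P) (h2 : 2 ≤ g.jc Λ J P)
    (h1 : ∀ S ⊆ P, g.Closed Λ S → 1 ≤ g.jc Λ J S → 1 ≤ g.jc Λ J (P \ S) →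
      1 ≤ g.bd (g.ins U P) S) :
    ∃ Y W, W ⊆ g.ins U P ∧ 2 ≤ g.jc Λ J Y ∧ g.Sel Λ0 Λ W J Y := by
  obtain ⟨Y, hY, c1, c2, -, c4, c5⟩ := select (h.closed hP) (bd_eq_zero.2 closed_ins) h2 h1
  have u1 : ∀ S ⊆ Y, g.Closed Λ S → S.Nonempty → (Y \ S).Nonempty → g.jc Λ J S = 0 →
      1 ≤ g.bd (g.ins (g.ins U P) Y) S := fun S hS hc a1 a2 a3 => by
    have := c5 S hS hc a3
    have := h.bd_le hc a3
    have := hP.cut S (hS.trans hY) (hc.mono h.lo) a1 (a2.mono (sdiff_subset_sdiff hY Subset.rfl))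
    omega
  refine ⟨Y, g.ins (g.ins U P) Y, filter_subset _ _, c2, h.lo, c1, fun e he => (mem_filter.1 he).2,
    fun S hS hc a1 a2 => ?_, fun S hS hc a1 a2 => ?_, fun S hS hc a1 a2 a3 => ?_⟩
  · have e1 := Finset.sdiff_sdiff_eq_self hS
    rcases le_total (g.jc Λ J S) (g.jc Λ J (Y \ S)) with hh | hh
    · rcases Nat.eq_zero_or_pos (g.jc Λ J S) with a3 | a3
      · exact u1 S hS hc a1 a2 a3
      · have := (c4 S hS hc a3 hh).2; omega
    · rw [← bd_compl hS]
      rcases Nat.eq_zero_or_pos (g.jc Λ J (Y \ S)) with a3 | a3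
      · exact u1 _ sdiff_subset (c1.sdiff hc) a2 (by rwa [e1]) a3
      · have := (c4 _ sdiff_subset (c1.sdiff hc) a3 (by rwa [e1])).2; omega
  · obtain ⟨b1, b2⟩ := c4 S hS hc a1 a2
    exact b1.trans (by exact_mod_cast (by omega))
  · have b1 := c5 S hS hc a2
    have b2 := h.bd_le hc a2
    have b3 := hP.big S (hS.trans hY) (hc.mono h.lo) a1
      (a3.trans (jc_mono (sdiff_subset_sdiff hY Subset.rfl)))
    have : 5 * (g.bd (g.ins U0 P) S : ℝ) ≤ 18 * g.bd (g.ins (g.ins U P) Y) S := by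
      exact_mod_cast (by omega)
    linarith

theorem Sel.piv_ne (hs : g.Sel Λ0 Λ W J Y) (hx : x ∈ Y) (hy : y ∈ Y) (hK : g.Piv Λ W x y K) :
    1 ≤ K.card := by
  refine card_pos.2 (nonempty_iff_ne_empty.2 ?_)
  rintro rfl
  obtain ⟨e, he, h4⟩ := bd_pos.1 (hs.conn _ ((hs.closed ∅).blk_subset hx)
    (closed_blk.mono subset_union_left) ⟨x, self_mem_blk⟩
    ⟨y, mem_sdiff.2 ⟨hy, fun hh => hK.1 (mem_blk.1 hh)⟩⟩)
  exact closed_blk e (by simp [he]) h4

end MG

end Pool.Agent.P.MP_e0c037_lc.FL
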